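import Mathlib

/-!
Module Cnt (only Mathlib): counting sets in which every `(j+1)`-subset contains a vertex that is
determined by the others.

Paper proof (complete). Induction on `r ≥ j`. For `r = j`: the members of `F` are `j`-subsets of
`V`, so `F.card ≤ V.card.choose j ≤ V.card ^ j` (`Finset.powersetCard`, `Nat.choose_le_pow`), and the
second factor is `(..)^0 = 1`. Step `r → r + 1` (`r ≥ j`): let `F` be as in the statement for `r + 1`.
For `e ∈ F` choose any `(j+1)`-subset `f ⊆ e` (`Finset.exists_subset_card_eq`) and `y ∈ f` with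
`y ∈ W (f.erase y)`. The set `e.erase y` has `r` elements and satisfies the hypothesis for `r`
(subsets of `e.erase y` are subsets of `e`); let `F'` be the set (image) of all the `e.erase y`;
induction gives `F'.card ≤ V.card ^ j * (2 ^ r * w) ^ (r - j)`. The triple
`(e.erase y, f.erase y, y)` determines `e` (`e = insert y (e.erase y)`), `f.erase y` is a `j`-subset of
`e.erase y` (at most `2 ^ r` choices, powerset) and `y ∈ W (f.erase y)` (at most `w` choices, as
`f.erase y ⊆ V`). Hence `F.card ≤ F'.card * 2 ^ r * w`, and
`V.card ^ j * (2 ^ r * w) ^ (r - j) * (2 ^ r * w) ≤ V.card ^ j * (2 ^ (r + 1) * w) ^ (r + 1 - j)`.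
Hint: inject `F` into `F'.sigma (fun e' => (e'.powersetCard j).sigma W)` (`Finset.card_sigma`), or use
`Finset.card_le_mul_card_image` twice.
-/

namespace Pool.Agent.H74.GA

theorem card_determined {α : Type*} [DecidableEq α] (V : Finset α) (j w : ℕ)
    (W : Finset α → Finset α) (hW : ∀ g ⊆ V, g.card = j → (W g).card ≤ w) (r : ℕ) (hr : j ≤ r)
    (F : Finset (Finset α)) (hF : ∀ e ∈ F, e ⊆ V ∧ e.card = r)
    (hF' : ∀ e ∈ F, ∀ f ⊆ e, f.card = j + 1 → ∃ v ∈ f, v ∈ W (f.erase v)) :
    F.card ≤ V.card ^ j * (2 ^ r * w) ^ (r - j) := by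
  classical
  induction r, hr using Nat.le_induction generalizing F with
  | base =>
    have h1 : F ⊆ V.powersetCard j := by
      intro e he
      rw [Finset.mem_powersetCard]
      exact hF e he
    have h2 := Finset.card_le_card h1
    rw [Finset.card_powersetCard] at h2
    simpa using h2.trans (Nat.choose_le_pow V.card j)
  | succ r hr ih =>
    have key : ∀ e ∈ F, ∃ f : Finset α, ∃ y : α, f ⊆ e ∧ f.card = j + 1 ∧ y ∈ f ∧
        y ∈ W (f.erase y) := by
      intro e he
      obtain ⟨f, hfe, hf⟩ := Finset.exists_subset_card_eq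
        (show j + 1 ≤ e.card by rw [(hF e he).2]; omega)
      obtain ⟨v, hv, hvW⟩ := hF' e he f hfe hf
      exact ⟨f, v, hfe, hf, hv, hvW⟩
    rcases F.eq_empty_or_nonempty with hF0 | ⟨e0, he0⟩
    · rw [hF0]
      exact Nat.zero_le _
    have hα : Nonempty α := by
      obtain ⟨-, v, -⟩ := key e0 he0
      exact ⟨v⟩
    choose! f y hfe hfc hyf hyW using key
    have hye : ∀ e ∈ F, y e ∈ e := fun e he => hfe e he (hyf e he)
    have h1 : (F.image (fun e => e.erase (y e))).card ≤ V.card ^ j * (2 ^ r * w) ^ (r - j) := by
      apply ih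
      · intro a ha
        obtain ⟨e, he, rfl⟩ := Finset.mem_image.1 ha
        refine ⟨(Finset.erase_subset _ _).trans (hF e he).1, ?_⟩
        rw [Finset.card_erase_of_mem (hye e he), (hF e he).2]
        rfl
      · intro a ha
        obtain ⟨e, he, rfl⟩ := Finset.mem_image.1 ha
        intro g hg hgc
        exact hF' e he g (hg.trans (Finset.erase_subset _ _)) hgc
    have h2 : F ⊆ (F.image (fun e => e.erase (y e))).biUnion
        (fun a => (a.powersetCard j).biUnion (fun g => (W g).image (fun v => insert v a))) := by
      intro e he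
      rw [Finset.mem_biUnion]
      refine ⟨e.erase (y e), Finset.mem_image_of_mem _ he, ?_⟩
      rw [Finset.mem_biUnion]
      refine ⟨(f e).erase (y e), ?_, ?_⟩
      · rw [Finset.mem_powersetCard]
        refine ⟨Finset.erase_subset_erase _ (hfe e he), ?_⟩
        rw [Finset.card_erase_of_mem (hyf e he), hfc e he]
        rfl
      · rw [Finset.mem_image]
        exact ⟨y e, hyW e he, Finset.insert_erase (hye e he)⟩
    have h3 : ∀ a ∈ F.image (fun e => e.erase (y e)),
        ((a.powersetCard j).biUnion (fun g => (W g).image (fun v => insert v a))).card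
          ≤ 2 ^ r * w := by
      intro a ha
      obtain ⟨e, he, hea⟩ := Finset.mem_image.1 ha
      have haV : a ⊆ V := by
        rw [← hea]
        exact (Finset.erase_subset _ _).trans (hF e he).1
      have hac : a.card = r := by
        rw [← hea, Finset.card_erase_of_mem (hye e he), (hF e he).2]
        rfl
      calc ((a.powersetCard j).biUnion (fun g => (W g).image (fun v => insert v a))).card
          ≤ (a.powersetCard j).card * w := by
            apply Finset.card_biUnion_le_card_mul
            intro g hg
            rw [Finset.mem_powersetCard] at hg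
            exact Finset.card_image_le.trans (hW g (hg.1.trans haV) hg.2)
        _ ≤ 2 ^ r * w := by
            rw [Finset.card_powersetCard, hac]
            exact Nat.mul_le_mul_right _ (Nat.choose_le_two_pow r j)
    have h4 : F.card ≤ (F.image (fun e => e.erase (y e))).card * (2 ^ r * w) :=
      (Finset.card_le_card h2).trans (Finset.card_biUnion_le_card_mul _ _ _ h3)
    have h5 : r + 1 - j = (r - j) + 1 := by omega
    calc F.card ≤ (F.image (fun e => e.erase (y e))).card * (2 ^ r * w) := h4
      _ ≤ V.card ^ j * (2 ^ r * w) ^ (r - j) * (2 ^ r * w) := Nat.mul_le_mul_right _ h1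
      _ = V.card ^ j * (2 ^ r * w) ^ (r + 1 - j) := by rw [h5, pow_succ, mul_assoc]
      _ ≤ V.card ^ j * (2 ^ (r + 1) * w) ^ (r + 1 - j) := by
          apply Nat.mul_le_mul_left
          apply Nat.pow_le_pow_left
          apply Nat.mul_le_mul_right
          exact Nat.pow_le_pow_right (by norm_num) (Nat.le_succ r)

end Pool.Agent.H74.GA
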