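import Mathlib
import Pool.Agent.H74.GA.Cnt

/-!
Module Bad (pure combinatorics): the number of edges that contain no good tuple.

Paper proof (complete). Apply `card_determined` with `w = δ + (j+1)^(j+2) * Cl.card * σ` and
`W g = D g ∪ W' g`, where `W' g` is the set of all `v ∈ V` such that there is an injective
`t ∈ T`, `t ∉ S` with `t (lab t) = v` and `(Finset.univ.image t).erase v = g` (filter of `V`, classical).
(a) Hypothesis `hF'`: let `e ∈ F`, `f ⊆ e`, `f.card = j + 1`. Let `t : Fin (j+1) → α` be an injective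
enumeration of `f` (`f.equivFinOfCardEq`), so `Finset.univ.image t = f`, all `t s ∈ e ⊆ V`. By `hF`,
`t ∉ S`. If `t ∉ T`, `hdeg` gives `s` with `t s ∈ D (f.erase (t s))`, take `v = t s`. If `t ∈ T` take
`v = t (lab t)`; then `v ∈ W' (f.erase v)` by definition.
(b) Hypothesis `hW`: let `g ⊆ V`, `g.card = j ≥ 1`, choose `g0 ∈ g`. `(D g).card ≤ δ` by `hD`. For
`v ∈ W' g` choose a `t_v` as in the definition. All `t_v s`, `s ≠ lab t_v`, are in `g` (they are in the
image and differ from `v = t_v (lab t_v)` by injectivity). Let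
`Φ v = (lab t_v, cl t_v, fun s => if s = lab t_v then g0 else t_v s)`, an element of
`univ ×ˢ Cl ×ˢ Fintype.piFinset (fun _ => g)`, a set with `(j+1) * (Cl.card * j^(j+1)) ≤
(j+1)^(j+2) * Cl.card` elements. Every fibre of `Φ` has at most `σ` elements: for a fibre `A`, the map
`v ↦ t_v` is injective on `A` (`t_v (lab t_v) = v`), and its image `R` satisfies the two hypotheses of
`hlab` (equal `lab`, equal `cl`, and for `s ≠ lab t_v` the third components give `t_v s = t_v' s`), so
`A.card = R.card ≤ σ`. Hence `(W' g).card ≤ σ * ((j+1)^(j+2) * Cl.card)`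
(`Finset.card_le_mul_card_image_of_maps_to`).
-/

namespace Pool.Agent.H74.GA

/-- the bound for the vertices determined by a good tuple -/
private theorem bad_count {j : ℕ} {α Γ : Type*} [DecidableEq α] (σ : ℕ)
    (hj : 1 ≤ j) (T S : Finset (Fin (j + 1) → α)) (cl : (Fin (j + 1) → α) → Γ)
    (lab : (Fin (j + 1) → α) → Fin (j + 1)) (Cl : Finset Γ) (hCl : ∀ t ∈ T, cl t ∈ Cl)
    (hlab : ∀ R : Finset (Fin (j + 1) → α), (∀ u ∈ R, u ∈ T ∧ u ∉ S) →
        (∀ u ∈ R, ∀ u' ∈ R, lab u = lab u' ∧ cl u = cl u' ∧ ∀ v, v ≠ lab u → u v = u' v) →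
        R.card ≤ σ)
    (g : Finset α) (hg : g.card = j) (A : Finset α)
    (hA : ∀ v ∈ A, ∃ t : Fin (j + 1) → α, Function.Injective t ∧ t ∈ T ∧ t ∉ S ∧ t (lab t) = v ∧
      (Finset.univ.image t).erase v = g) :
    A.card ≤ (j + 1) ^ (j + 2) * Cl.card * σ := by
  classical
  obtain ⟨g0, hg0⟩ : g.Nonempty := by
    rw [← Finset.card_pos, hg]
    exact hj
  choose! τ h1 h2 h3 h4 h5 using hA
  have hmem : ∀ v ∈ A, ∀ s, s ≠ lab (τ v) → τ v s ∈ g := by
    intro v hv s hs
    rw [← h5 v hv, Finset.mem_erase]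
    refine ⟨?_, Finset.mem_image_of_mem _ (Finset.mem_univ _)⟩
    intro h
    exact hs (h1 v hv (h.trans (h4 v hv).symm))
  have key : A.card ≤ σ * ((Finset.univ : Finset (Fin (j + 1))) ×ˢ
      (Cl ×ˢ Fintype.piFinset (fun _ : Fin (j + 1) => g))).card := by
    refine Finset.card_le_mul_card_image_of_maps_to
      (f := fun v => (lab (τ v), cl (τ v), fun s => if s = lab (τ v) then g0 else τ v s)) ?_ σ ?_
    · intro v hv
      refine Finset.mem_product.2 ⟨Finset.mem_univ _, Finset.mem_product.2 ⟨hCl _ (h2 v hv), ?_⟩⟩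
      rw [Fintype.mem_piFinset]
      intro s
      by_cases hs : s = lab (τ v)
      · simp only [hs, if_true]
        exact hg0
      · simp only [hs, if_false]
        exact hmem v hv s hs
    · rintro ⟨a, b, c⟩ -
      have hinj : Set.InjOn τ (A : Set α) := by
        intro v hv v' hv' h
        rw [← h4 v hv, ← h4 v' hv', h]
      have hsub : ∀ v ∈ A.filter (fun v => (lab (τ v), cl (τ v),
          fun s => if s = lab (τ v) then g0 else τ v s) = (a, b, c)), v ∈ A ∧ lab (τ v) = a ∧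
          cl (τ v) = b ∧ (fun s => if s = lab (τ v) then g0 else τ v s) = c := by
        intro v hv
        rw [Finset.mem_filter] at hv
        obtain ⟨hv1, hv2⟩ := hv
        rw [Prod.mk.injEq, Prod.mk.injEq] at hv2
        exact ⟨hv1, hv2.1, hv2.2.1, hv2.2.2⟩
      rw [← Finset.card_image_of_injOn (f := τ) (hinj.mono (fun v hv => (hsub v (Finset.mem_coe.1 hv)).1))]
      refine hlab _ ?_ ?_
      · intro u hu
        obtain ⟨v, hv, rfl⟩ := Finset.mem_image.1 hu
        exact ⟨h2 v (hsub v hv).1, h3 v (hsub v hv).1⟩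
      · intro u hu u' hu'
        obtain ⟨v, hv, rfl⟩ := Finset.mem_image.1 hu
        obtain ⟨v', hv', rfl⟩ := Finset.mem_image.1 hu'
        obtain ⟨q1, q2, q3, q4⟩ := hsub v hv
        obtain ⟨r1, r2, r3, r4⟩ := hsub v' hv'
        refine ⟨q2.trans r2.symm, q3.trans r3.symm, ?_⟩
        intro s hs
        have e := congrFun (q4.trans r4.symm) s
        have hs' : s ≠ lab (τ v') := by
          rw [r2, ← q2]
          exact hs
        simpa only [hs, hs', if_false] using e
  refine key.trans ?_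
  rw [Finset.card_product, Finset.card_product, Fintype.card_piFinset_const, Finset.card_univ,
    Fintype.card_fin, hg]
  have h6 : j ^ (j + 1) ≤ (j + 1) ^ (j + 1) := Nat.pow_le_pow_left (Nat.le_succ j) _
  calc σ * ((j + 1) * (Cl.card * j ^ (j + 1)))
      ≤ σ * ((j + 1) * (Cl.card * (j + 1) ^ (j + 1))) :=
        Nat.mul_le_mul_left _ (Nat.mul_le_mul_left _ (Nat.mul_le_mul_left _ h6))
    _ = (j + 1) ^ (j + 2) * Cl.card * σ := by ring

theorem card_no_good {j : ℕ} {α Γ : Type*} [DecidableEq α] (V : Finset α) (r σ δ : ℕ)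
    (hj : 1 ≤ j) (hr : j ≤ r) (T S : Finset (Fin (j + 1) → α)) (cl : (Fin (j + 1) → α) → Γ)
    (lab : (Fin (j + 1) → α) → Fin (j + 1)) (Cl : Finset Γ) (hCl : ∀ t ∈ T, cl t ∈ Cl)
    (hlab : ∀ R : Finset (Fin (j + 1) → α), (∀ u ∈ R, u ∈ T ∧ u ∉ S) →
        (∀ u ∈ R, ∀ u' ∈ R, lab u = lab u' ∧ cl u = cl u' ∧ ∀ v, v ≠ lab u → u v = u' v) →
        R.card ≤ σ)
    (D : Finset α → Finset α) (hD : ∀ g ⊆ V, g.card = j → (D g).card ≤ δ)
    (hdeg : ∀ t : Fin (j + 1) → α, Function.Injective t → (∀ s, t s ∈ V) → t ∉ T →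
      ∃ s, t s ∈ D ((Finset.univ.image t).erase (t s)))
    (F : Finset (Finset α)) (hFV : ∀ e ∈ F, e ⊆ V ∧ e.card = r)
    (hF : ∀ e ∈ F, ∀ t : Fin (j + 1) → α, Function.Injective t → (∀ s, t s ∈ e) → t ∉ S) :
    F.card ≤ V.card ^ j * (2 ^ r * (δ + (j + 1) ^ (j + 2) * Cl.card * σ)) ^ (r - j) := by
  classical
  refine card_determined V j (δ + (j + 1) ^ (j + 2) * Cl.card * σ)
    (fun g => D g ∪ V.filter (fun v => ∃ t : Fin (j + 1) → α, Function.Injective t ∧ t ∈ T ∧ t ∉ S ∧
      t (lab t) = v ∧ (Finset.univ.image t).erase v = g)) ?_ r hr F hFV ?_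
  · intro g hg hgc
    refine (Finset.card_union_le _ _).trans (Nat.add_le_add (hD g hg hgc) ?_)
    exact bad_count σ hj T S cl lab Cl hCl hlab g hgc _ (fun v hv => (Finset.mem_filter.1 hv).2)
  · intro e he f hfe hfc
    have en := f.equivFinOfCardEq hfc
    have hinj : Function.Injective (fun s => ((en.symm s : f) : α)) :=
      Subtype.val_injective.comp en.symm.injective
    have himg : (Finset.univ.image (fun s => ((en.symm s : f) : α))) = f := by
      ext x
      rw [Finset.mem_image]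
      constructor
      · rintro ⟨s, -, rfl⟩
        exact (en.symm s).2
      · intro hx
        exact ⟨en ⟨x, hx⟩, Finset.mem_univ _, by simp⟩
    have hmf : ∀ s, ((en.symm s : f) : α) ∈ f := fun s => (en.symm s).2
    have hnS := hF e he (fun s => ((en.symm s : f) : α)) hinj (fun s => hfe (hmf s))
    have hV : ∀ s, ((en.symm s : f) : α) ∈ V := fun s => (hFV e he).1 (hfe (hmf s))
    by_cases hT : (fun s => ((en.symm s : f) : α)) ∈ T
    · refine ⟨((en.symm (lab (fun s => ((en.symm s : f) : α))) : f) : α), hmf _, ?_⟩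
      refine Finset.mem_union_right _ (Finset.mem_filter.2 ⟨hV _, ?_⟩)
      exact ⟨fun s => ((en.symm s : f) : α), hinj, hT, hnS, rfl, by rw [himg]⟩
    · obtain ⟨s, hs⟩ := hdeg _ hinj hV hT
      rw [himg] at hs
      exact ⟨_, hmf s, Finset.mem_union_left _ hs⟩

end Pool.Agent.H74.GA
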