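import Mathlib
import Pool.Agent.H68.GeomHyp

/-!
Definitions for the selection lemma on integer points (all codimensions).
-/

namespace Pool.Agent.H74.GA

open Pool.Agent.H68

section comb

variable {q : ℕ} {α Γ : Type*}

/-- the tuples of `S` that agree with `t` off `s` -/
noncomputable def fib (S : Finset (Fin q → α)) (s : Fin q) (t : Fin q → α) :
    Finset (Fin q → α) := by
  classical
  exact S.filter (fun u => ∀ v, v ≠ s → u v = t v)

lemma mem_fib {S : Finset (Fin q → α)} {s : Fin q} {t u : Fin q → α} :
    u ∈ fib S s t ↔ u ∈ S ∧ ∀ v, v ≠ s → u v = t v := by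
  classical
  unfold fib
  rw [Finset.mem_filter]

/-- the tuples of `S` of class `γ` -/
noncomputable def part (S : Finset (Fin q → α)) (cl : (Fin q → α) → Γ) (γ : Γ) :
    Finset (Fin q → α) := by
  classical
  exact S.filter (fun u => cl u = γ)

lemma mem_part {S : Finset (Fin q → α)} {cl : (Fin q → α) → Γ} {γ : Γ} {u : Fin q → α} :
    u ∈ part S cl γ ↔ u ∈ S ∧ cl u = γ := by
  classical
  unfold part
  rw [Finset.mem_filter]

/-- `u` is obtained from `t` by replacing successively the coordinates of the list, without leaving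
`S` (at least after the first step) -/
def Chain (S : Finset (Fin q → α)) : List (Fin q) → (Fin q → α) → (Fin q → α) → Prop
  | [], t, u => u = t
  | s :: L, t, u => ∃ t' ∈ fib S s t, Chain S L t' u

end comb

section cls

/-- the label of a real number: its sign and the integer part of `M log |x|` -/
noncomputable def lev (M : ℕ) (x : ℝ) : SignType × ℤ :=
  (SignType.sign x, ⌊(M : ℝ) * Real.log |x|⌋)

/-- lower bound for the absolute values of the numbers with a given label -/
noncomputable def val (M : ℕ) (l : SignType × ℤ) : ℝ :=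
  if l.1 = 0 then 0 else Real.exp ((l.2 : ℝ) / M)

variable {q : ℕ}

/-- negative coordinates of a class -/
def neg (γ : Fin q → SignType × ℤ) : Finset (Fin q) := Finset.univ.filter (fun s => (γ s).1 = -1)

/-- positive coordinates of a class -/
def pos (γ : Fin q → SignType × ℤ) : Finset (Fin q) := Finset.univ.filter (fun s => (γ s).1 = 1)

/-- the smaller one of the two sets of coordinates -/
def sml (γ : Fin q → SignType × ℤ) : Finset (Fin q) :=
  if (neg γ).card ≤ (pos γ).card then neg γ else pos γ

/-- the sign that makes the smaller one negative -/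
noncomputable def sg (γ : Fin q → SignType × ℤ) : ℝ :=
  if (neg γ).card ≤ (pos γ).card then 1 else -1

end cls

section geo

variable {d j : ℕ}

/-- homogeneous coordinates of the projection to the first `j` coordinates -/
noncomputable def hom (hj : j ≤ d) (p : Pt d) : Fin (j + 1) → ℝ :=
  Fin.cons 1 (fun i => p (Fin.castLE hj i))

/-- the matrix whose columns are the homogeneous coordinates of the points of a tuple -/
noncomputable def mat (hj : j ≤ d) (u : Fin (j + 1) → Pt d) :
    Matrix (Fin (j + 1)) (Fin (j + 1)) ℝ :=
  Matrix.of (fun i s => hom hj (u s) i)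

/-- the last unit vector -/
noncomputable def tv (j : ℕ) : Fin (j + 1) → ℝ := Pi.single (Fin.last j) 1

/-- the coefficients of the last unit vector with respect to the points of a tuple -/
noncomputable def bet (hj : j ≤ d) (u : Fin (j + 1) → Pt d) (s : Fin (j + 1)) : ℝ :=
  (mat hj u).cramer (tv j) s / (mat hj u).det

/-- the bound for the determinants -/
def dbd (j N : ℕ) : ℕ := (j + 1).factorial * N ^ (j + 1)

/-- number of subdivisions of a natural logarithmic scale -/
def sbd (j : ℕ) : ℕ := 8 * (j + 1)

/-- the bound for the labels -/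
noncomputable def kbd (j N : ℕ) : ℕ := ⌈(sbd j : ℝ) * Real.log (dbd j N)⌉₊

/-- the possible labels -/
noncomputable def labs (j N : ℕ) : Finset (SignType × ℤ) :=
  (Finset.univ : Finset SignType) ×ˢ Finset.Icc (-((kbd j N : ℤ) + 1)) (kbd j N : ℤ)

/-- the possible classes -/
noncomputable def Cls (j N : ℕ) : Finset (Fin (j + 1) → SignType × ℤ) :=
  Fintype.piFinset (fun _ => labs j N)

/-- the class of a tuple -/
noncomputable def cls (hj : j ≤ d) (u : Fin (j + 1) → Pt d) : Fin (j + 1) → SignType × ℤ :=
  fun s => lev (sbd j) (bet hj u s)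

/-- the nondegenerate tuples of points of `V` -/
noncomputable def Tup (hj : j ≤ d) (V : Finset (Pt d)) : Finset (Fin (j + 1) → Pt d) := by
  classical
  exact (Fintype.piFinset (fun _ => V)).filter (fun u => (mat hj u).det ≠ 0)

lemma mem_Tup {hj : j ≤ d} {V : Finset (Pt d)} {u : Fin (j + 1) → Pt d} :
    u ∈ Tup hj V ↔ (∀ s, u s ∈ V) ∧ (mat hj u).det ≠ 0 := by
  classical
  unfold Tup
  rw [Finset.mem_filter, Fintype.mem_piFinset]

/-- the points of `V` that depend on the points of `g` after the projection -/
noncomputable def Dg (hj : j ≤ d) (V g : Finset (Pt d)) : Finset (Pt d) := by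
  classical
  exact V.filter (fun c => hom hj c ∈ Submodule.span ℝ (hom hj '' (g : Set (Pt d))))

lemma mem_Dg {hj : j ≤ d} {V g : Finset (Pt d)} {c : Pt d} :
    c ∈ Dg hj V g ↔ c ∈ V ∧ hom hj c ∈ Submodule.span ℝ (hom hj '' (g : Set (Pt d))) := by
  classical
  unfold Dg
  rw [Finset.mem_filter]

/-- the candidate vector of a class `γ` and a tuple `u` (only `u s` for `s` in the smaller one of the
two sets of coordinates matters) -/
noncomputable def cand (hj : j ≤ d) (γ : Fin (j + 1) → SignType × ℤ) (u : Fin (j + 1) → Pt d) :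
    Fin (j + 1) → ℝ :=
  ∑ s ∈ sml γ, ((1 + 2 * (2 / (sbd j : ℝ))) * val (sbd j) (γ s)) • hom hj (u s) + sg γ • tv j

end geo

end Pool.Agent.H74.GA
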