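import Mathlib
import Pool.Agent.H74.GA.Dfs

/-!
Module Cln (pure combinatorics, uses only `fib`, `part` of Dfs): cleaning.

Paper proof (complete). Strong induction on `T.card` (`T` generalised).
(1) If all `t ∈ T`, `s ∈ N (cl t)` satisfy `σ ≤ (fib (part T cl (cl t)) s t).card`, take `S = T`,
`lab = fun _ => 0`; a set `R` as in the last clause is empty.
(2) Otherwise there are `t0 ∈ T`, `s ∈ N (cl t0)` such that `F = fib (part T cl (cl t0)) s t0` has
fewer than `σ` elements; `t0 ∈ F`. Let `T1 = T \ F`, a smaller set; induction gives `S`, `lab1` for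
`T1`. Take the same `S` and `lab u = if u ∈ F then s else lab1 u`. The first two clauses are clear.
Last clause: let `R` be given. If `R` contains an element `u` of `F`, then every `u' ∈ R` has
`lab u' = lab u = s`, `cl u' = cl u = cl t0`, and agrees with `u`, hence with `t0`, off `s`; as
`u' ∈ T` this says `u' ∈ F`. So `R ⊆ F` and `R.card < σ`. If `R` is disjoint from `F`, then all
elements of `R` are in `T1` and `lab = lab1` on `R`; use the induction hypothesis.
-/

namespace Pool.Agent.H74.GA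

theorem exists_clean {j : ℕ} {α Γ : Type*} (T : Finset (Fin (j + 1) → α))
    (cl : (Fin (j + 1) → α) → Γ) (N : Γ → Finset (Fin (j + 1))) (σ : ℕ) :
    ∃ (S : Finset (Fin (j + 1) → α)) (lab : (Fin (j + 1) → α) → Fin (j + 1)), S ⊆ T ∧
      (∀ t ∈ S, ∀ s ∈ N (cl t), σ ≤ (fib (part S cl (cl t)) s t).card) ∧
      (∀ R : Finset (Fin (j + 1) → α), (∀ u ∈ R, u ∈ T ∧ u ∉ S) →
        (∀ u ∈ R, ∀ u' ∈ R, lab u = lab u' ∧ cl u = cl u' ∧ ∀ v, v ≠ lab u → u v = u' v) →
        R.card ≤ σ) := by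
  classical
  induction hn : T.card using Nat.strong_induction_on generalizing T with
  | _ n ih =>
    by_cases h : ∀ t ∈ T, ∀ s ∈ N (cl t), σ ≤ (fib (part T cl (cl t)) s t).card
    · refine ⟨T, fun _ => 0, subset_rfl, h, fun R hR _ => ?_⟩
      have hE : R = ∅ :=
        Finset.eq_empty_of_forall_notMem fun u hu => (hR u hu).2 (hR u hu).1
      rw [hE, Finset.card_empty]
      exact Nat.zero_le _
    · push Not at h
      obtain ⟨t0, ht0, s, hs, hlt⟩ := h
      obtain ⟨F, hF⟩ : ∃ F, F = fib (part T cl (cl t0)) s t0 := ⟨_, rfl⟩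
      rw [← hF] at hlt
      have hFm : ∀ u, u ∈ F ↔ (u ∈ T ∧ cl u = cl t0) ∧ ∀ v, v ≠ s → u v = t0 v := fun u => by
        rw [hF, mem_fib, mem_part]
      have ht0F : t0 ∈ F := (hFm t0).2 ⟨⟨ht0, rfl⟩, fun _ _ => rfl⟩
      have hcard : (T \ F).card < n := by
        rw [← hn]
        exact Finset.card_lt_card
          ⟨Finset.sdiff_subset, fun h' => (Finset.mem_sdiff.1 (h' ht0)).2 ht0F⟩
      obtain ⟨S, lab1, hST, h1, h2⟩ := ih _ hcard (T \ F) rfl
      refine ⟨S, fun u => if u ∈ F then s else lab1 u, hST.trans Finset.sdiff_subset, h1,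
        fun R hR hRR => ?_⟩
      by_cases hRF : ∃ u ∈ R, u ∈ F
      · obtain ⟨u, huR, huF⟩ := hRF
        have hsub : R ⊆ F := by
          intro u' hu'
          obtain ⟨e1, e2, e3⟩ := hRR u huR u' hu'
          simp only [if_pos huF] at e1 e3
          rw [hFm]
          refine ⟨⟨(hR u' hu').1, e2.symm.trans ((hFm u).1 huF).1.2⟩, fun v hv => ?_⟩
          rw [← e3 v hv]
          exact ((hFm u).1 huF).2 v hv
        exact (Finset.card_le_card hsub).trans hlt.le
      · have hRF' : ∀ u ∈ R, u ∉ F := fun u hu hu' => hRF ⟨u, hu, hu'⟩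
        refine h2 R (fun u hu => ⟨Finset.mem_sdiff.2 ⟨(hR u hu).1, hRF' u hu⟩, (hR u hu).2⟩) ?_
        intro u hu u' hu'
        obtain ⟨e1, e2, e3⟩ := hRR u hu u' hu'
        simp only [if_neg (hRF' u hu), if_neg (hRF' u' hu')] at e1 e3
        exact ⟨e1, e2, e3⟩

end Pool.Agent.H74.GA
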