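import Mathlib
import Pool.Agent.H68.Real
import Pool.Agent.H74.GA.Dfs

/-!
Module Flt (flats).

Paper proof (complete).
`exists_flat_of_vec`: the linear map `F : Pt d → (Fin j → ℝ)`, `F p i = p (Fin.castLE hj i)`, is
surjective, so its kernel has dimension `d - j` (rank-nullity). Choose `p0` with
`F p0 = fun i => X i.succ / X 0` and `L = AffineSubspace.mk' p0 (ker F)`; then `p ∈ L` iff
`F p = F p0`. Let `e, u, z` be given. Coordinate `0` of `X = ∑ z s • hom hj (u s)` gives
`∑ z s = X 0 > 0`, the other ones `∑ z s * u s (castLE i) = X i.succ`. The point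
`∑ s, (z s / X 0) • u s` is a convex combination of points of `e` (`Convex.sum_mem`) and lies in `L`.
`exists_flat_deg`: some vertex `x` lies in at least `r * m / n ≥ m / n` edges (copy of the first part of
`Pool.Agent.H68.fval_lower_deg`, with `Pool.Agent.H68.sum_deg_eq`); take a `k`-flat through `x`
(`Pool.Agent.H68.exists_flat_through`).
`exists_best_flat`: `numMet G L ≤ G.E.card` (`numMet_le`), so the maximum of `numMet G L` over all
`k`-flats is attained (`Nat.sSup_mem`, or well-foundedness).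
-/

namespace Pool.Agent.H74.GA

open Pool.Agent.H68

variable {d j : ℕ}

theorem exists_flat_of_vec (hj : j ≤ d) (X : Fin (j + 1) → ℝ) (hX : 0 < X 0) :
    ∃ L : AffineSubspace ℝ (Pt d), IsFlat (d - j) L ∧
      ∀ (e : Finset (Pt d)) (u : Fin (j + 1) → Pt d) (z : Fin (j + 1) → ℝ),
        (∀ s, u s ∈ e) → (∀ s, 0 ≤ z s) → X = ∑ s, z s • hom hj (u s) → Meets L e := by
  classical
  let φ : Pt d →ₗ[ℝ] (Fin j → ℝ) :=
    { toFun := fun p i => p (Fin.castLE hj i)
      map_add' := fun p q => by funext i; simp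
      map_smul' := fun c p => by funext i; simp }
  have hφ : ∀ p i, φ p i = p (Fin.castLE hj i) := fun p i => rfl
  have hsurj : Function.Surjective φ := by
    intro a
    refine ⟨WithLp.toLp 2 (fun t : Fin d => if h : t.val < j then a ⟨t.val, h⟩ else 0), ?_⟩
    funext i
    rw [hφ]
    simp
  obtain ⟨p0, hp0⟩ := hsurj (fun i => X i.succ / X 0)
  refine ⟨AffineSubspace.mk' p0 (LinearMap.ker φ), ⟨⟨p0, AffineSubspace.self_mem_mk' _ _⟩, ?_⟩, ?_⟩
  · rw [AffineSubspace.direction_mk']
    have h1 := LinearMap.finrank_range_add_finrank_ker φ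
    rw [LinearMap.range_eq_top.2 hsurj, finrank_top, Module.finrank_fin_fun,
      finrank_euclideanSpace_fin] at h1
    omega
  · intro e u z hu hz hX'
    have hX0 : X 0 = ∑ s, z s := by
      rw [hX', Finset.sum_apply]
      refine Finset.sum_congr rfl (fun s _ => ?_)
      simp [hom]
    have hXs : ∀ i : Fin j, X i.succ = ∑ s, z s * (u s) (Fin.castLE hj i) := by
      intro i
      conv_lhs => rw [hX']
      rw [Finset.sum_apply]
      refine Finset.sum_congr rfl (fun s _ => ?_)
      simp [hom]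
    refine ⟨∑ s, (z s / X 0) • u s, ?_, ?_⟩
    · show (∑ s, (z s / X 0) • u s) ∈ AffineSubspace.mk' p0 (LinearMap.ker φ)
      rw [AffineSubspace.mem_mk', LinearMap.mem_ker, vsub_eq_sub, map_sub, sub_eq_zero, hp0]
      funext i
      rw [map_sum, Finset.sum_apply, hXs i, Finset.sum_div]
      refine Finset.sum_congr rfl (fun s _ => ?_)
      rw [map_smul, Pi.smul_apply, hφ, smul_eq_mul]
      ring
    · apply (convex_convexHull ℝ (e : Set (Pt d))).sum_mem
      · intro s _
        exact div_nonneg (hz s) hX.le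
      · rw [← Finset.sum_div, ← hX0]
        exact div_self hX.ne'
      · intro s _
        exact subset_convexHull ℝ _ (hu s)

theorem exists_flat_deg {r : ℕ} (G : GeomHyp d r) (k : ℕ) (hk : k ≤ d) (hr : 1 ≤ r)
    (hE : G.E.Nonempty) :
    ∃ L : AffineSubspace ℝ (Pt d), IsFlat k L ∧ G.E.card ≤ G.V.card * numMet G L := by
  classical
  have hVn : 1 ≤ G.V.card := by
    obtain ⟨e, he⟩ := hE
    have h1 := Finset.card_le_card (G.subV e he)
    rw [G.card_eq e he] at h1
    omega
  have hex : ∃ x ∈ G.V, r * G.E.card ≤ G.V.card * (G.E.filter (fun e => x ∈ e)).card := by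
    by_contra hcon
    push Not at hcon
    have h1 : ∑ x ∈ G.V, G.V.card * (G.E.filter (fun e => x ∈ e)).card <
        ∑ x ∈ G.V, r * G.E.card := by
      apply Finset.sum_lt_sum_of_nonempty
      · exact Finset.card_pos.1 (by omega)
      · exact hcon
    rw [← Finset.mul_sum, sum_deg_eq, Finset.sum_const, smul_eq_mul] at h1
    exact lt_irrefl _ h1
  obtain ⟨x, hxV, hx⟩ := hex
  obtain ⟨L, hL, hxL⟩ := exists_flat_through hk x
  refine ⟨L, hL, ?_⟩
  have h2 : (G.E.filter (fun e => x ∈ e)).card ≤ numMet G L := by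
    unfold numMet
    rw [← Set.ncard_coe_finset]
    apply Set.ncard_le_ncard _ (Set.Finite.subset (G.E.finite_toSet) (fun e he => he.1))
    intro e he
    rw [Finset.coe_filter] at he
    refine ⟨he.1, x, hxL, ?_⟩
    exact subset_convexHull ℝ _ he.2
  calc G.E.card ≤ r * G.E.card := Nat.le_mul_of_pos_left _ (by omega)
    _ ≤ G.V.card * (G.E.filter (fun e => x ∈ e)).card := hx
    _ ≤ G.V.card * numMet G L := Nat.mul_le_mul_left _ h2

theorem exists_best_flat {r : ℕ} (G : GeomHyp d r) (k : ℕ) (hk : k ≤ d) :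
    ∃ L : AffineSubspace ℝ (Pt d), IsFlat k L ∧
      ∀ L' : AffineSubspace ℝ (Pt d), IsFlat k L' → numMet G L' ≤ numMet G L := by
  classical
  let S : Set ℕ := {t | ∃ L : AffineSubspace ℝ (Pt d), IsFlat k L ∧ numMet G L = t}
  have hne : S.Nonempty := by
    obtain ⟨L, hL, -⟩ := exists_flat_through hk (0 : Pt d)
    exact ⟨numMet G L, L, hL, rfl⟩
  have hbd : BddAbove S := by
    refine ⟨G.E.card, ?_⟩
    rintro t ⟨L, -, rfl⟩
    exact numMet_le G L
  obtain ⟨L, hL, hLe⟩ := Nat.sSup_mem hne hbd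
  refine ⟨L, hL, fun L' hL' => ?_⟩
  rw [hLe]
  exact le_csSup hbd ⟨L', hL', rfl⟩

end Pool.Agent.H74.GA
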