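import Mathlib
import Pool.Agent.H74.GA.Dfs

/-!
Module Gen (general position).

Paper proof (complete).
`card_Dg_le`: `g` has `j ≥ 1` elements, so the span of `hom hj '' g` has dimension at most `j < j + 1`
(`finrank_span_finset_le_card` or `finrank_span_le_card`) and is contained in the kernel of a nonzero
linear functional `φ` on `Fin (j+1) → ℝ` (`Submodule.exists_le_ker_of_lt_top`). Choose `g0 ∈ g`, so
`φ (hom hj g0) = 0`. The functional `ψ p = φ (Fin.cons 0 (fun i => p (Fin.castLE hj i)))` on `Pt d` is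
linear and `φ (hom hj p) = φ (Fin.cons 1 0) + ψ p`. If `ψ = 0` then `φ (Fin.cons 1 0) = 0` (take
`p = g0`) and `φ` vanishes at all `Fin.cons 0 x` (every `x : Fin j → ℝ` is a projection as `j ≤ d`), so
`φ = 0`, a contradiction. So `ker ψ` has dimension `d - 1` and `H = AffineSubspace.mk' g0 (ker ψ)` is a
hyperplane which contains all points `c` with `φ (hom hj c) = 0`, in particular `Dg hj G.V g`. Use
`G.genPos H`.
`exists_mem_Dg`: the determinant is `0`, so the columns `hom hj (t s)` are linearly dependent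
(`Matrix.exists_mulVec_eq_zero_iff` gives `c ≠ 0` with `∑ s, c s • hom hj (t s) = 0`); choose `s` with
`c s ≠ 0` and solve for `hom hj (t s)`: it lies in the span of the `hom hj (t v)`, `v ≠ s`, and these
`t v` lie in `(Finset.univ.image t).erase (t s)` because `t` is injective.
`Tup_injective`: if `t s = t v` with `s ≠ v` then two columns of the matrix are equal and the
determinant vanishes (`Matrix.det_zero_of_column_eq`).
-/

namespace Pool.Agent.H74.GA

open Pool.Agent.H68

variable {d j r : ℕ}

/-- the linear part of `hom` -/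
private noncomputable def genA (hj : j ≤ d) : Pt d →ₗ[ℝ] (Fin (j + 1) → ℝ) where
  toFun p := Fin.cons 0 (fun i => p (Fin.castLE hj i))
  map_add' p q := by
    funext i
    refine Fin.cases ?_ (fun i => ?_) i
    · simp
    · simp
  map_smul' c p := by
    funext i
    refine Fin.cases ?_ (fun i => ?_) i
    · simp
    · simp

private lemma gen_hom_eq (hj : j ≤ d) (p : Pt d) :
    hom hj p = (Fin.cons 1 (fun _ => 0) : Fin (j + 1) → ℝ) + genA hj p := by
  funext i
  refine Fin.cases ?_ (fun i => ?_) i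
  · simp [hom, genA]
  · simp [hom, genA]

private lemma gen_surj (hj : j ≤ d) (x : Fin j → ℝ) :
    ∃ p : Pt d, genA hj p = (Fin.cons 0 x : Fin (j + 1) → ℝ) := by
  refine ⟨WithLp.toLp 2 (fun i : Fin d => if h : (i : ℕ) < j then x ⟨i, h⟩ else 0), ?_⟩
  funext i
  refine Fin.cases ?_ (fun i => ?_) i
  · simp [genA]
  · simp [genA]

theorem card_Dg_le (G : GeomHyp d r) (hj1 : 1 ≤ j) (hj : j ≤ d) (g : Finset (Pt d))
    (hg : g ⊆ G.V) (hgc : g.card = j) : (Dg hj G.V g).card ≤ d := by
  classical
  have hne : g.Nonempty := by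
    rw [← Finset.card_pos]
    omega
  obtain ⟨g0, hg0⟩ := hne
  have hlt : Submodule.span ℝ (hom hj '' (g : Set (Pt d))) < ⊤ := by
    apply lt_top_iff_ne_top.mpr
    intro htop
    have h1 : Module.finrank ℝ (Submodule.span ℝ (hom hj '' (g : Set (Pt d)))) ≤ j := by
      have h2 : (hom hj '' (g : Set (Pt d))) = ((g.image (hom hj) : Finset (Fin (j + 1) → ℝ)) :
          Set (Fin (j + 1) → ℝ)) := by
        rw [Finset.coe_image]
      rw [h2]
      refine (finrank_span_finset_le_card _).trans ?_
      exact Finset.card_image_le.trans hgc.le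
    rw [htop, finrank_top] at h1
    simp at h1
  obtain ⟨φ, hφ0, hφ⟩ := Submodule.exists_le_ker_of_lt_top _ hlt
  have hφg : φ (hom hj g0) = 0 := by
    apply hφ
    exact Submodule.subset_span ⟨g0, hg0, rfl⟩
  have hψ0 : φ.comp (genA hj) ≠ 0 := by
    intro h0
    have hA : ∀ p, φ (genA hj p) = 0 := fun p => by
      have := LinearMap.congr_fun h0 p
      simpa using this
    apply hφ0
    have h1 : φ (Fin.cons 1 (fun _ => 0) : Fin (j + 1) → ℝ) = 0 := by
      have h2 := hφg
      rw [gen_hom_eq, map_add, hA, add_zero] at h2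
      exact h2
    apply LinearMap.ext
    intro y
    have hy : y = y 0 • (Fin.cons 1 (fun _ => 0) : Fin (j + 1) → ℝ) +
        (Fin.cons 0 (fun i => y i.succ) : Fin (j + 1) → ℝ) := by
      funext i
      refine Fin.cases ?_ (fun i => ?_) i
      · simp
      · simp
    obtain ⟨p, hp⟩ := gen_surj hj (fun i => y i.succ)
    rw [hy, map_add, map_smul, h1, ← hp, hA]
    simp
  have hfin := Module.Dual.finrank_ker_add_one_of_ne_zero hψ0
  have hd : Module.finrank ℝ (Pt d) = d := by simp
  rw [hd] at hfin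
  have hgen := G.genPos (AffineSubspace.mk' g0 (LinearMap.ker (φ.comp (genA hj)))) (by
    rw [AffineSubspace.direction_mk']
    exact hfin)
  refine le_trans ?_ hgen
  rw [← Set.ncard_coe_finset]
  apply Set.ncard_le_ncard
  · intro c hc
    have hc' := mem_Dg.mp (Finset.mem_coe.mp hc)
    refine ⟨hc'.1, ?_⟩
    rw [AffineSubspace.mem_mk', LinearMap.mem_ker]
    have h1 : φ (hom hj c) = 0 := hφ hc'.2
    rw [vsub_eq_sub, map_sub]
    rw [gen_hom_eq, map_add] at h1 hφg
    simp only [LinearMap.comp_apply]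
    linarith
  · exact (Finset.finite_toSet G.V).subset (fun x hx => hx.1)

theorem exists_mem_Dg [DecidableEq (Pt d)] (hj : j ≤ d) (V : Finset (Pt d))
    (t : Fin (j + 1) → Pt d) (ht : Function.Injective t) (htV : ∀ s, t s ∈ V)
    (hdet : (mat hj t).det = 0) :
    ∃ s, t s ∈ Dg hj V ((Finset.univ.image t).erase (t s)) := by
  obtain ⟨c, hc0, hc⟩ := Matrix.exists_mulVec_eq_zero_iff.mpr hdet
  have hsum : ∑ s, c s • hom hj (t s) = 0 := by
    funext i
    have h1 := congrFun hc i
    rw [Matrix.mulVec, dotProduct] at h1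
    rw [Finset.sum_apply]
    simp only [Pi.smul_apply, smul_eq_mul, Pi.zero_apply]
    simp only [Pi.zero_apply, mat, Matrix.of_apply] at h1
    rw [← h1]
    exact Finset.sum_congr rfl (fun s _ => mul_comm _ _)
  obtain ⟨s, hs⟩ := Function.ne_iff.mp hc0
  have hs' : c s ≠ 0 := by simpa using hs
  refine ⟨s, mem_Dg.mpr ⟨htV s, ?_⟩⟩
  have h2 : hom hj (t s) = ∑ v ∈ Finset.univ.erase s, (-(c s)⁻¹ * c v) • hom hj (t v) := by
    rw [← Finset.add_sum_erase _ _ (Finset.mem_univ s)] at hsum
    have h3 : c s • hom hj (t s) = -∑ v ∈ Finset.univ.erase s, c v • hom hj (t v) :=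
      eq_neg_of_add_eq_zero_left hsum
    have h4 : hom hj (t s) = (c s)⁻¹ • (c s • hom hj (t s)) := by
      rw [smul_smul, inv_mul_cancel₀ hs', one_smul]
    rw [h4, h3, smul_neg, Finset.smul_sum, ← Finset.sum_neg_distrib]
    refine Finset.sum_congr rfl (fun v _ => ?_)
    rw [smul_smul, ← neg_smul]
    congr 1
    ring
  rw [h2]
  refine Submodule.sum_mem _ (fun v hv => Submodule.smul_mem _ _ (Submodule.subset_span ?_))
  refine ⟨t v, ?_, rfl⟩
  rw [Finset.mem_coe, Finset.mem_erase]
  refine ⟨fun h => (Finset.mem_erase.mp hv).1 (ht h), ?_⟩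
  exact Finset.mem_image_of_mem _ (Finset.mem_univ v)

theorem Tup_injective (hj : j ≤ d) (V : Finset (Pt d)) (t : Fin (j + 1) → Pt d)
    (ht : t ∈ Tup hj V) : Function.Injective t := by
  intro s v hsv
  by_contra hne
  apply (mem_Tup.mp ht).2
  apply Matrix.det_zero_of_column_eq hne
  intro i
  simp only [mat, Matrix.of_apply, hsv]

end Pool.Agent.H74.GA
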