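import Mathlib
import Pool.Agent.H74.GA.Dfs

/-!
Module Lev (labels of real numbers).

Paper proof (complete).
`val_nonneg`, `val_pos`: clear.
`lev_bounds`: `x = 0`: both sides are `0`. `x ≠ 0`: let `m = ⌊M log |x|⌋`, `m ≤ M log |x| < m + 1`,
so `exp (m/M) ≤ |x| < exp (m/M) * exp (1/M)` and `exp (1/M) ≤ 1 + 2/M` because `1/M ≤ 1`
(`Real.abs_exp_sub_one_le`, or `exp x ≤ 1 + x + x^2` for `x ≤ 1`, `Real.exp_bound_div_one_sub_of_interval`).
`cls_mem`: each label is in `labs j N`: the sign is arbitrary; `bet = 0`: `log 0 = 0`, the integer part is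
`0`; otherwise `|log |x|| ≤ log D` with `D = dbd j N ≥ 1` (`bet_bound` is a hypothesis here), so
`-(K+1) ≤ ⌊M log |x|⌋ ≤ K` where `K = ⌈M log D⌉₊`.
`card_Cls`: `Fintype.card_piFinset_const`.
`card_labs_le`: `labs j N` has `3 * (2 K + 2)` elements, `K ≤ M log D + 1`, `M = 8 (j+1)`,
`log D = log ((j+1)!) + (j+1) log N ≤ (log ((d+1)!) / log 2 + (d+1)) * log N` for `N ≥ 2`, and
`1 ≤ log N / log 2`.
`card_sml_le`: `neg γ` and `pos γ` are disjoint, so the smaller one has at most `(j+1)/2` elements.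
-/

namespace Pool.Agent.H74.GA

open Pool.Agent.H68

theorem val_nonneg (M : ℕ) (l : SignType × ℤ) : 0 ≤ val M l := by
  unfold val
  split_ifs
  · exact le_refl _
  · exact (Real.exp_pos _).le

theorem val_pos (M : ℕ) (l : SignType × ℤ) (hl : l.1 ≠ 0) : 0 < val M l := by
  unfold val
  rw [if_neg hl]
  exact Real.exp_pos _

theorem lev_bounds (M : ℕ) (hM : 1 ≤ M) (x : ℝ) :
    val M (lev M x) ≤ |x| ∧ |x| ≤ (1 + 2 / (M : ℝ)) * val M (lev M x) := by
  have hM0 : (0 : ℝ) < M := by exact_mod_cast hM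
  by_cases hx : x = 0
  · subst hx
    simp [val, lev]
  · have hs : (lev M x).1 ≠ 0 := by
      simp only [lev]
      exact (sign_ne_zero (a := x)).2 hx
    have hax : 0 < |x| := abs_pos.2 hx
    have hv : val M (lev M x) = Real.exp ((⌊(M : ℝ) * Real.log |x|⌋ : ℝ) / M) := by
      unfold val
      rw [if_neg hs]
      rfl
    rw [hv]
    have h1 : (⌊(M : ℝ) * Real.log |x|⌋ : ℝ) / M ≤ Real.log |x| := by
      rw [div_le_iff₀ hM0, mul_comm]
      exact Int.floor_le _
    have h2 : Real.log |x| ≤ 1 / (M : ℝ) + (⌊(M : ℝ) * Real.log |x|⌋ : ℝ) / M := by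
      rw [← add_div, le_div_iff₀ hM0]
      have := (Int.lt_floor_add_one ((M : ℝ) * Real.log |x|)).le
      linarith
    refine ⟨?_, ?_⟩
    · calc Real.exp ((⌊(M : ℝ) * Real.log |x|⌋ : ℝ) / M) ≤ Real.exp (Real.log |x|) :=
            Real.exp_le_exp.2 h1
        _ = |x| := Real.exp_log hax
    · have h3 : Real.exp (1 / (M : ℝ)) ≤ 1 + 2 / (M : ℝ) := by
        have hle : |1 / (M : ℝ)| ≤ 1 := by
          rw [abs_of_nonneg (by positivity), div_le_one hM0]
          exact_mod_cast hM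
        have h4 := (abs_le.1 (Real.abs_exp_sub_one_le hle)).2
        rw [abs_of_nonneg (show (0 : ℝ) ≤ 1 / (M : ℝ) by positivity)] at h4
        have h5 : 2 * (1 / (M : ℝ)) = 2 / (M : ℝ) := by ring
        linarith
      calc |x| = Real.exp (Real.log |x|) := (Real.exp_log hax).symm
        _ ≤ Real.exp (1 / (M : ℝ) + (⌊(M : ℝ) * Real.log |x|⌋ : ℝ) / M) := Real.exp_le_exp.2 h2
        _ = Real.exp (1 / (M : ℝ)) * Real.exp ((⌊(M : ℝ) * Real.log |x|⌋ : ℝ) / M) :=
            Real.exp_add _ _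
        _ ≤ (1 + 2 / (M : ℝ)) * Real.exp ((⌊(M : ℝ) * Real.log |x|⌋ : ℝ) / M) :=
            mul_le_mul_of_nonneg_right h3 (Real.exp_pos _).le

private theorem Lev_dbd_pos (j N : ℕ) (hN : 1 ≤ N) : (1 : ℝ) ≤ (dbd j N : ℝ) := by
  have : 1 ≤ dbd j N := by
    unfold dbd
    exact Nat.mul_pos (Nat.factorial_pos _) (Nat.pow_pos hN)
  exact_mod_cast this

theorem cls_mem {d j : ℕ} (hj : j ≤ d) (N : ℕ) (hN : 1 ≤ N) (u : Fin (j + 1) → Pt d)
    (h : ∀ s, bet hj u s ≠ 0 → 1 / (dbd j N : ℝ) ≤ |bet hj u s| ∧ |bet hj u s| ≤ dbd j N) :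
    cls hj u ∈ Cls j N := by
  have hD := Lev_dbd_pos j N hN
  have hD0 : (0 : ℝ) < (dbd j N : ℝ) := by linarith
  have hK : (sbd j : ℝ) * Real.log (dbd j N) ≤ (kbd j N : ℝ) := Nat.le_ceil _
  have hM0 : (0 : ℝ) ≤ (sbd j : ℝ) := Nat.cast_nonneg _
  unfold Cls
  rw [Fintype.mem_piFinset]
  intro s
  unfold labs
  rw [Finset.mem_product]
  refine ⟨Finset.mem_univ _, ?_⟩
  rw [Finset.mem_Icc]
  change -((kbd j N : ℤ) + 1) ≤ ⌊(sbd j : ℝ) * Real.log |bet hj u s|⌋ ∧
    ⌊(sbd j : ℝ) * Real.log |bet hj u s|⌋ ≤ (kbd j N : ℤ)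
  have hb : |(Real.log |bet hj u s| : ℝ)| ≤ Real.log (dbd j N) := by
    by_cases h0 : bet hj u s = 0
    · rw [h0]
      simp only [abs_zero, Real.log_zero]
      exact Real.log_nonneg hD
    · obtain ⟨h1, h2⟩ := h s h0
      have hp : 0 < |bet hj u s| := abs_pos.2 h0
      rw [abs_le]
      refine ⟨?_, Real.log_le_log hp h2⟩
      have := Real.log_le_log (by positivity) h1
      rw [one_div, Real.log_inv] at this
      exact this
  rw [abs_le] at hb
  have hu : (sbd j : ℝ) * Real.log |bet hj u s| ≤ kbd j N :=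
    (mul_le_mul_of_nonneg_left hb.2 hM0).trans hK
  have hl : -(kbd j N : ℝ) ≤ (sbd j : ℝ) * Real.log |bet hj u s| := by
    have := mul_le_mul_of_nonneg_left hb.1 hM0
    linarith
  refine ⟨?_, ?_⟩
  · rw [Int.le_floor]
    push_cast
    linarith
  · have h1 : ((⌊(sbd j : ℝ) * Real.log |bet hj u s|⌋ : ℤ) : ℝ) ≤ ((kbd j N : ℤ) : ℝ) := by
      push_cast
      exact (Int.floor_le _).trans hu
    exact_mod_cast h1

theorem card_Cls (j N : ℕ) : (Cls j N).card = (labs j N).card ^ (j + 1) := by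
  unfold Cls
  rw [Fintype.card_piFinset_const]

private theorem Lev_card_labs (j N : ℕ) : (labs j N).card = 3 * (2 * kbd j N + 2) := by
  unfold labs
  rw [Finset.card_product, Int.card_Icc]
  have h1 : (Finset.univ : Finset SignType).card = 3 := rfl
  have h2 : ((kbd j N : ℤ) + 1 - -((kbd j N : ℤ) + 1)).toNat = 2 * kbd j N + 2 := by omega
  rw [h1, h2]

theorem card_labs_pos (j N : ℕ) : 1 ≤ (labs j N).card := by
  rw [Lev_card_labs]
  omega

theorem card_labs_le (d : ℕ) : ∃ C : ℝ, 1 ≤ C ∧ ∀ j N : ℕ, j ≤ d → 2 ≤ N →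
    ((labs j N).card : ℝ) ≤ C * Real.log N := by
  have hl2 : 0 < Real.log 2 := Real.log_pos (by norm_num)
  have hf : 0 ≤ Real.log ((d + 1).factorial : ℝ) :=
    Real.log_nonneg (by exact_mod_cast Nat.factorial_pos (d + 1))
  refine ⟨1 + 6 * (8 * (d + 1) * (Real.log ((d + 1).factorial : ℝ) / Real.log 2 + (d + 1)) +
    2 / Real.log 2), ?_, ?_⟩
  · have : 0 ≤ 6 * (8 * ((d : ℝ) + 1) * (Real.log ((d + 1).factorial : ℝ) / Real.log 2 + (d + 1)) +
      2 / Real.log 2) := by positivity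
    linarith
  · intro j N hj hN
    have hN2 : (2 : ℝ) ≤ N := by exact_mod_cast hN
    have hlN : Real.log 2 ≤ Real.log N := Real.log_le_log (by norm_num) hN2
    have hlN0 : 0 < Real.log N := by linarith
    have hjd : (j : ℝ) ≤ d := by exact_mod_cast hj
    have hj0 : (0 : ℝ) ≤ j := Nat.cast_nonneg _
    have h1 : (1 : ℝ) ≤ Real.log N / Real.log 2 := by
      rw [le_div_iff₀ hl2]
      linarith
    have hD : Real.log (dbd j N) ≤
        (Real.log ((d + 1).factorial : ℝ) / Real.log 2 + (d + 1)) * Real.log N := by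
      have e1 : (dbd j N : ℝ) = ((j + 1).factorial : ℝ) * (N : ℝ) ^ (j + 1) := by
        unfold dbd
        push_cast
        ring
      rw [e1, Real.log_mul (by positivity) (by positivity), Real.log_pow]
      have h2 : Real.log ((j + 1).factorial : ℝ) ≤ Real.log ((d + 1).factorial : ℝ) :=
        Real.log_le_log (by positivity) (by
          exact_mod_cast Nat.factorial_le (by omega))
      have h3 : Real.log ((d + 1).factorial : ℝ) ≤
          Real.log ((d + 1).factorial : ℝ) / Real.log 2 * Real.log N := by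
        have h4 := mul_le_mul_of_nonneg_left h1 hf
        calc Real.log ((d + 1).factorial : ℝ) = Real.log ((d + 1).factorial : ℝ) * 1 := by ring
          _ ≤ Real.log ((d + 1).factorial : ℝ) * (Real.log N / Real.log 2) := h4
          _ = Real.log ((d + 1).factorial : ℝ) / Real.log 2 * Real.log N := by ring
      have h5 : ((j + 1 : ℕ) : ℝ) * Real.log N ≤ ((d : ℝ) + 1) * Real.log N := by
        refine mul_le_mul_of_nonneg_right ?_ hlN0.le
        push_cast
        linarith
      rw [add_mul]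
      linarith
    have hD0 : 0 ≤ Real.log (dbd j N) := Real.log_nonneg (Lev_dbd_pos j N (by omega))
    have hK : (kbd j N : ℝ) ≤ (sbd j : ℝ) * Real.log (dbd j N) + 1 :=
      (Nat.ceil_lt_add_one (mul_nonneg (Nat.cast_nonneg _) hD0)).le
    have hs : (sbd j : ℝ) ≤ 8 * ((d : ℝ) + 1) := by
      unfold sbd
      push_cast
      linarith
    have h6 : (sbd j : ℝ) * Real.log (dbd j N) ≤ 8 * ((d : ℝ) + 1) *
        ((Real.log ((d + 1).factorial : ℝ) / Real.log 2 + (d + 1)) * Real.log N) :=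
      mul_le_mul hs hD hD0 (by positivity)
    have h7 : (2 : ℝ) ≤ 2 / Real.log 2 * Real.log N := by
      calc (2 : ℝ) = 2 * 1 := by ring
        _ ≤ 2 * (Real.log N / Real.log 2) := by linarith
        _ = 2 / Real.log 2 * Real.log N := by ring
    rw [Lev_card_labs]
    push_cast
    have h8 : (1 + 6 * (8 * ((d : ℝ) + 1) * (Real.log ((d + 1).factorial : ℝ) / Real.log 2 +
        (d + 1)) + 2 / Real.log 2)) * Real.log N = Real.log N + 6 * (8 * ((d : ℝ) + 1) *
        ((Real.log ((d + 1).factorial : ℝ) / Real.log 2 + (d + 1)) * Real.log N) +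
        2 / Real.log 2 * Real.log N) := by ring
    rw [h8]
    linarith

theorem card_sml_le {q : ℕ} (γ : Fin q → SignType × ℤ) : (sml γ).card ≤ q / 2 := by
  have hd : Disjoint (neg γ) (pos γ) := by
    rw [Finset.disjoint_left]
    intro s h1 h2
    simp only [neg, pos, Finset.mem_filter] at h1 h2
    have := h1.2.symm.trans h2.2
    exact absurd this (by decide)
  have h3 : (neg γ).card + (pos γ).card ≤ q := by
    rw [← Finset.card_union_of_disjoint hd]
    have := Finset.card_le_univ (neg γ ∪ pos γ)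
    rwa [Fintype.card_fin] at this
  unfold sml
  split_ifs with h
  · omega
  · omega

end Pool.Agent.H74.GA
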