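import Mathlib
import Pool.Agent.H74.GA.Dfs

/-!
Module Lin (Cramer's rule and integrality).

Paper proof (complete).
`bet_sum`: `Matrix.mulVec_cramer` gives `mat *ᵥ cramer (tv) = det • tv`; divide by `det`, and read
`(mat hj u) *ᵥ c = ∑ s, c s • hom hj (u s)` coordinatewise.
`bet_sum_zero`: coordinate `0` of `bet_sum`: `hom hj p 0 = 1` and `tv j 0 = 0` since `Fin.last j ≠ 0`.
`exists_neg`, `exists_pos`: the `bet hj u s` are not all zero (otherwise `tv j = 0`), and their sum is
zero.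
`bet_bound`: the entries of `mat hj u` are integers of absolute value at most `N` (the entries of row
`0` are `1 ≤ N`), and so are those of `tv j`. So `det` is an integer (`Matrix.map`, `RingHom.map_det`)
of absolute value at most `dbd j N = (j+1)! * N^(j+1)` (`Matrix.det_le`), and the same holds for
`cramer (tv j) s = det (updateCol ..)` (`Matrix.cramer_apply`). So `bet hj u s = p / q` with integers
`p ≠ 0`, `q ≠ 0` of absolute value at least `1` and at most `dbd j N`.
-/

namespace Pool.Agent.H74.GA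

open Pool.Agent.H68

variable {d j : ℕ}

private theorem Lin_coord (hj : j ≤ d) (u : Fin (j + 1) → Pt d) (hu : (mat hj u).det ≠ 0)
    (i : Fin (j + 1)) : ∑ s, bet hj u s * hom hj (u s) i = tv j i := by
  have h1 := congrFun (Matrix.mulVec_cramer (mat hj u) (tv j)) i
  rw [Matrix.mulVec, dotProduct] at h1
  have h2 : ∑ s, bet hj u s * hom hj (u s) i =
      (∑ s, mat hj u i s * (mat hj u).cramer (tv j) s) / (mat hj u).det := by
    rw [Finset.sum_div]
    refine Finset.sum_congr rfl fun s _ => ?_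
    rw [bet, mat, Matrix.of_apply]
    ring
  rw [h2, h1, Pi.smul_apply, smul_eq_mul, mul_comm, mul_div_assoc, div_self hu, mul_one]

private theorem Lin_not_zero (hj : j ≤ d) (u : Fin (j + 1) → Pt d) (hu : (mat hj u).det ≠ 0) :
    ¬ ∀ s, bet hj u s = 0 := by
  intro h
  have h1 := Lin_coord hj u hu (Fin.last j)
  rw [Finset.sum_eq_zero fun s _ => by rw [h s, zero_mul], tv, Pi.single_eq_same] at h1
  exact zero_ne_one h1

/-- the integer matrix -/
private def Lin_B (z : Fin (j + 1) → Fin d → ℕ) (hj : j ≤ d) :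
    Matrix (Fin (j + 1)) (Fin (j + 1)) ℤ :=
  Matrix.of (fun i s => Fin.cases (motive := fun _ => ℤ) 1 (fun i => (z s (Fin.castLE hj i) : ℤ)) i)

private theorem Lin_mat (hj : j ≤ d) (u : Fin (j + 1) → Pt d) (z : Fin (j + 1) → Fin d → ℕ)
    (hz : ∀ s i, u s i = z s i) : mat hj u = (Lin_B z hj).map (Int.castRingHom ℝ) := by
  ext i s
  rw [mat, Matrix.of_apply, Matrix.map_apply, Lin_B, Matrix.of_apply, hom]
  refine Fin.cases ?_ (fun i => ?_) i
  · simp
  · simp [hz]

private theorem Lin_det {n : ℕ} (B : Matrix (Fin n) (Fin n) ℤ) (N : ℕ)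
    (h : ∀ i s, |B i s| ≤ N) : |B.det| ≤ n.factorial * (N : ℤ) ^ n := by
  have h1 := Matrix.det_le (A := B) (abv := AbsoluteValue.abs) (x := (N : ℤ)) (fun i s => h i s)
  rw [Fintype.card_fin, nsmul_eq_mul] at h1
  exact h1

theorem bet_sum (hj : j ≤ d) (u : Fin (j + 1) → Pt d) (hu : (mat hj u).det ≠ 0) :
    ∑ s, bet hj u s • hom hj (u s) = tv j := by
  funext i
  rw [Finset.sum_apply]
  exact Lin_coord hj u hu i

theorem bet_sum_zero (hj1 : 1 ≤ j) (hj : j ≤ d) (u : Fin (j + 1) → Pt d)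
    (hu : (mat hj u).det ≠ 0) : ∑ s, bet hj u s = 0 := by
  have h1 := Lin_coord hj u hu 0
  have h2 : (0 : Fin (j + 1)) ≠ Fin.last j := by
    intro h
    have := congrArg Fin.val h
    simp at this
    omega
  rw [tv, Pi.single_eq_of_ne h2] at h1
  rw [← h1]
  refine Finset.sum_congr rfl fun s _ => ?_
  rw [hom, Fin.cons_zero, mul_one]

theorem exists_neg (hj1 : 1 ≤ j) (hj : j ≤ d) (u : Fin (j + 1) → Pt d)
    (hu : (mat hj u).det ≠ 0) : ∃ s, bet hj u s < 0 := by
  by_contra hcon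
  push Not at hcon
  have h1 := bet_sum_zero hj1 hj u hu
  have h2 := (Finset.sum_eq_zero_iff_of_nonneg fun s _ => hcon s).1 h1
  exact Lin_not_zero hj u hu fun s => h2 s (Finset.mem_univ s)

theorem exists_pos (hj1 : 1 ≤ j) (hj : j ≤ d) (u : Fin (j + 1) → Pt d)
    (hu : (mat hj u).det ≠ 0) : ∃ s, 0 < bet hj u s := by
  by_contra hcon
  push Not at hcon
  have h1 := bet_sum_zero hj1 hj u hu
  have h2 := (Finset.sum_eq_zero_iff_of_nonpos fun s _ => hcon s).1 h1
  exact Lin_not_zero hj u hu fun s => h2 s (Finset.mem_univ s)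

theorem bet_bound (hj : j ≤ d) (N : ℕ) (hN : 1 ≤ N) (u : Fin (j + 1) → Pt d)
    (hint : ∀ s i, ∃ z : ℕ, z ≤ N ∧ u s i = z) (hu : (mat hj u).det ≠ 0) (s : Fin (j + 1))
    (hs : bet hj u s ≠ 0) :
    1 / (dbd j N : ℝ) ≤ |bet hj u s| ∧ |bet hj u s| ≤ dbd j N := by
  choose z hzN hz using hint
  have hm := Lin_mat hj u z hz
  have hN' : (1 : ℤ) ≤ N := by exact_mod_cast hN
  have hB : ∀ i s, |Lin_B z hj i s| ≤ (N : ℤ) := by
    intro i s
    rw [Lin_B, Matrix.of_apply]
    refine Fin.cases ?_ (fun i => ?_) i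
    · simpa using hN'
    · simp only [Fin.cases_succ]
      rw [abs_of_nonneg (by positivity)]
      exact_mod_cast hzN s _
  have hd : (mat hj u).det = ((Lin_B z hj).det : ℝ) := by
    rw [hm]
    exact (RingHom.map_det (Int.castRingHom ℝ) (Lin_B z hj)).symm
  set C : Matrix (Fin (j + 1)) (Fin (j + 1)) ℤ :=
    (Lin_B z hj).updateCol s (Pi.single (Fin.last j) 1) with hC
  have hc : (mat hj u).cramer (tv j) s = (C.det : ℝ) := by
    rw [Matrix.cramer_apply, hm]
    have h1 : ((Lin_B z hj).map (Int.castRingHom ℝ)).updateCol s (tv j) =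
        C.map (Int.castRingHom ℝ) := by
      rw [hC, Matrix.map_updateCol]
      congr 1
      funext i
      rw [tv, Function.comp_apply]
      by_cases hi : i = Fin.last j
      · subst hi; simp
      · rw [Pi.single_eq_of_ne hi, Pi.single_eq_of_ne hi]; simp
    rw [h1]
    exact (RingHom.map_det (Int.castRingHom ℝ) C).symm
  have hCb : ∀ i s', |C i s'| ≤ (N : ℤ) := by
    intro i s'
    rw [hC, Matrix.updateCol_apply]
    split_ifs with h1
    · by_cases hi : i = Fin.last j
      · subst hi; simpa using hN'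
      · rw [Pi.single_eq_of_ne hi, abs_zero]; linarith
    · exact hB i s'
  have hbB := Lin_det (Lin_B z hj) N hB
  have hbC := Lin_det C N hCb
  have hq0 : (Lin_B z hj).det ≠ 0 := by
    intro h
    rw [hd, h] at hu
    exact hu (by simp)
  have hbet : bet hj u s = (C.det : ℝ) / ((Lin_B z hj).det : ℝ) := by rw [bet, hd, hc]
  have hp0 : C.det ≠ 0 := by
    intro h
    rw [hbet, h] at hs
    exact hs (by simp)
  have hp1 : (1 : ℝ) ≤ |(C.det : ℝ)| := by exact_mod_cast Int.one_le_abs hp0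
  have hq1 : (1 : ℝ) ≤ |((Lin_B z hj).det : ℝ)| := by exact_mod_cast Int.one_le_abs hq0
  have hD : ((dbd j N : ℕ) : ℝ) = ((j + 1).factorial : ℝ) * (N : ℝ) ^ (j + 1) := by
    rw [dbd]; push_cast; ring
  have hp2 : |(C.det : ℝ)| ≤ dbd j N := by
    rw [hD]; exact_mod_cast hbC
  have hq2 : |((Lin_B z hj).det : ℝ)| ≤ dbd j N := by
    rw [hD]; exact_mod_cast hbB
  have hq3 : (0 : ℝ) < |((Lin_B z hj).det : ℝ)| := by linarith
  have hD3 : (0 : ℝ) < dbd j N := by linarith
  rw [hbet, abs_div]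
  constructor
  · rw [div_le_div_iff₀ hD3 hq3]
    nlinarith
  · rw [div_le_iff₀ hq3]
    nlinarith

end Pool.Agent.H74.GA
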