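import Mathlib
import Pool.Agent.H74.GA.Dfs

/-!
Module Sel (pure combinatorics, uses only `fib`, `part`, `Chain` of Dfs): selection of a candidate.

Paper proof (complete).
`card_chain`: induction on `L`. `[]`: `σ^0 = 1` and `u = t` is an end. `s :: L`: for
`t' ∈ fib S s t` the ends `{u ∈ S | Chain S L t' u}` number at least `σ ^ L.length` (note `t' ∈ S`), and
for different `t'` these sets are disjoint: `u s = t' s` because `s ∉ L` (private lemma: if `s ∉ L` and
`Chain S L t' u` then `u s = t' s`), and `t'` is determined by `t' s` (it agrees with `t` elsewhere).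
There are at least `σ` such `t'`. Another private lemma: if `Chain S L t u` then `u v = t v` for
`v ∉ L`; and ends are in `S` if `t ∈ S`.

`exists_cand`: for `e ∈ E` choose `t_e ∈ S` with `t_e s ∈ e` for all `s`. By pigeonhole
(`Finset.exists_lt_card_fiber_of_mul_lt_card_of_maps_to` or a sum over `Cl`, `E.card = ∑ γ ∈ Cl, ..`)
there is `γ ∈ Cl` such that `E' = {e ∈ E | cl t_e = γ}` satisfies `E.card ≤ Cl.card * E'.card`; as `E`
is nonempty so is `E'`, hence `γ = cl t` for some `t = t_e ∈ S`. Let `S0 = part S cl γ`,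
`L = (N γ).toList` (nodup, length `(N γ).card`). For `e ∈ E'` the set of ends
`U_e = {u ∈ S0 | Chain S0 L t_e u}` has at least `σ ^ (N γ).card` elements by `card_chain` (for
`t' ∈ S0` and `s ∈ L`, `σ ≤ (fib S0 s t').card` by `hS`, since `cl t' = γ`). Fix `v0 ∈ V` and let
`Q = Fintype.piFinset (fun s => if s ∈ N γ then V else {v0})`, so `Q.card = V.card ^ (N γ).card`. For
`u ∈ U_e` let `ρ u = fun s => if s ∈ N γ then u s else v0`, in `Q`; `ρ` is injective on `U_e` (elements
of `U_e` agree with `t_e` off `N γ`); and `stab γ (ρ u) e` by `hstab`. So every `e ∈ E'` satisfies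
`stab γ u' e` for at least `σ ^ (N γ).card` elements `u'` of `Q`. Double counting: some `u' ∈ Q` has
`E'.card * σ ^ (N γ).card ≤ V.card ^ (N γ).card * #{e ∈ E | stab γ u' e}`. Multiply by
`σ ^ (i - (N γ).card) ≤ V.card ^ (i - (N γ).card)`.
-/

namespace Pool.Agent.H74.GA

private lemma chain_off {q : ℕ} {α : Type*} {S : Finset (Fin q → α)} :
    ∀ (L : List (Fin q)) {t u : Fin q → α}, Chain S L t u → ∀ v, v ∉ L → u v = t v
  | [], t, u, h, v, _ => by rw [show u = t from h]
  | s :: L, t, u, h, v, hv => by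
    obtain ⟨t', ht', hc⟩ := h
    rw [List.mem_cons, not_or] at hv
    rw [chain_off L hc v hv.2, (mem_fib.mp ht').2 v hv.1]

private lemma chain_mem {q : ℕ} {α : Type*} {S : Finset (Fin q → α)} :
    ∀ (L : List (Fin q)) {t u : Fin q → α}, t ∈ S → Chain S L t u → u ∈ S
  | [], t, u, ht, h => by rw [show u = t from h]; exact ht
  | _ :: L, _, _, _, h => by
    obtain ⟨t', ht', hc⟩ := h
    exact chain_mem L (mem_fib.mp ht').1 hc

open Classical in
private lemma card_chain' {q : ℕ} {α : Type*} (S : Finset (Fin q → α)) (σ : ℕ) :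
    ∀ (L : List (Fin q)), L.Nodup → (∀ t ∈ S, ∀ s ∈ L, σ ≤ (fib S s t).card) → ∀ t ∈ S,
      σ ^ L.length ≤ (S.filter (fun u => Chain S L t u)).card
  | [], _, _, t, ht => by
    rw [List.length_nil, pow_zero, Nat.one_le_iff_ne_zero, ← Nat.pos_iff_ne_zero,
      Finset.card_pos]
    exact ⟨t, Finset.mem_filter.mpr ⟨ht, rfl⟩⟩
  | s :: L, hL, hS, t, ht => by
    rw [List.nodup_cons] at hL
    have ih := card_chain' S σ L hL.2 (fun t ht s' hs' => hS t ht s' (List.mem_cons_of_mem _ hs'))
    have hdisj : ((fib S s t : Finset (Fin q → α)) : Set (Fin q → α)).PairwiseDisjoint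
        (fun t' => S.filter (fun u => Chain S L t' u)) := by
      intro t' ht' t'' ht'' hne
      rw [Function.onFun, Finset.disjoint_left]
      intro u hu hu'
      apply hne
      have h1 := chain_off L (Finset.mem_filter.mp hu).2 s hL.1
      have h2 := chain_off L (Finset.mem_filter.mp hu').2 s hL.1
      funext v
      by_cases hv : v = s
      · rw [hv, ← h1, h2]
      · rw [(mem_fib.mp (Finset.mem_coe.mp ht')).2 v hv,
          (mem_fib.mp (Finset.mem_coe.mp ht'')).2 v hv]
    have hsub : (fib S s t).biUnion (fun t' => S.filter (fun u => Chain S L t' u)) ⊆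
        S.filter (fun u => Chain S (s :: L) t u) := by
      intro u hu
      obtain ⟨t', ht', hu'⟩ := Finset.mem_biUnion.mp hu
      exact Finset.mem_filter.mpr ⟨(Finset.mem_filter.mp hu').1, t', ht',
        (Finset.mem_filter.mp hu').2⟩
    calc σ ^ (s :: L).length = σ * σ ^ L.length := by rw [List.length_cons, pow_succ']
      _ ≤ (fib S s t).card * σ ^ L.length :=
        Nat.mul_le_mul_right _ (hS t ht s List.mem_cons_self)
      _ = ∑ t' ∈ fib S s t, σ ^ L.length := by rw [Finset.sum_const, smul_eq_mul]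
      _ ≤ ∑ t' ∈ fib S s t, (S.filter (fun u => Chain S L t' u)).card :=
        Finset.sum_le_sum fun t' ht' => ih t' (mem_fib.mp ht').1
      _ = ((fib S s t).biUnion (fun t' => S.filter (fun u => Chain S L t' u))).card :=
        (Finset.card_biUnion hdisj).symm
      _ ≤ _ := Finset.card_le_card hsub

theorem card_chain {q : ℕ} {α : Type*} (S : Finset (Fin q → α)) (σ : ℕ) (L : List (Fin q))
    (hL : L.Nodup) (hS : ∀ t ∈ S, ∀ s ∈ L, σ ≤ (fib S s t).card) (t : Fin q → α) (ht : t ∈ S) :
    σ ^ L.length ≤ {u : Fin q → α | u ∈ S ∧ Chain S L t u}.ncard := by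
  classical
  have h := card_chain' S σ L hL hS t ht
  have he : {u : Fin q → α | u ∈ S ∧ Chain S L t u} =
      ((S.filter (fun u => Chain S L t u) : Finset (Fin q → α)) : Set (Fin q → α)) := by
    ext u
    simp
  rw [he, Set.ncard_coe_finset]
  exact h

private lemma exists_big {β : Type*} (Q : Finset β) (f : β → ℕ) (c : ℕ) (hQ : Q.Nonempty)
    (h : c ≤ ∑ x ∈ Q, f x) : ∃ x ∈ Q, c ≤ Q.card * f x := by
  by_contra hcon
  push Not at hcon
  have h1 : ∑ x ∈ Q, Q.card * f x < ∑ _x ∈ Q, c := Finset.sum_lt_sum_of_nonempty hQ hcon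
  rw [← Finset.mul_sum, Finset.sum_const, smul_eq_mul] at h1
  exact absurd (Nat.mul_le_mul_left Q.card h) (not_le.mpr h1)

theorem exists_cand {j : ℕ} {α Γ : Type*} (V : Finset α)
    (S : Finset (Fin (j + 1) → α)) (hSV : ∀ t ∈ S, ∀ s, t s ∈ V)
    (cl : (Fin (j + 1) → α) → Γ) (Cl : Finset Γ) (hCl : ∀ t ∈ S, cl t ∈ Cl)
    (N : Γ → Finset (Fin (j + 1))) (i σ : ℕ) (hN : ∀ γ, (N γ).card ≤ i) (hσ : σ ≤ V.card)
    (hS : ∀ t ∈ S, ∀ s ∈ N (cl t), σ ≤ (fib (part S cl (cl t)) s t).card)
    (E : Finset (Finset α)) (hE0 : E.Nonempty) (hE : ∀ e ∈ E, ∃ t ∈ S, ∀ s, t s ∈ e)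
    (stab : Γ → (Fin (j + 1) → α) → Finset α → Prop)
    (hstab : ∀ e ∈ E, ∀ t ∈ S, (∀ s, t s ∈ e) → ∀ u ∈ S,
      Chain (part S cl (cl t)) (N (cl t)).toList t u →
      ∀ u' : Fin (j + 1) → α, (∀ s ∈ N (cl t), u' s = u s) → stab (cl t) u' e) :
    ∃ t ∈ S, ∃ u : Fin (j + 1) → α,
      E.card * σ ^ i ≤ Cl.card * V.card ^ i * {e : Finset α | e ∈ E ∧ stab (cl t) u e}.ncard := by
  classical
  obtain ⟨e0, he0⟩ := hE0
  obtain ⟨t0, ht0, ht0e⟩ := hE e0 he0
  have hch : ∀ e : Finset α, ∃ t : Fin (j + 1) → α, e ∈ E → t ∈ S ∧ ∀ s, t s ∈ e := by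
    intro e
    by_cases he : e ∈ E
    · obtain ⟨t, ht, hte⟩ := hE e he
      exact ⟨t, fun _ => ⟨ht, hte⟩⟩
    · exact ⟨t0, fun h => absurd h he⟩
  choose te hte using hch
  have hClne : Cl.Nonempty := ⟨cl t0, hCl t0 ht0⟩
  obtain ⟨γ, hγ, hγc⟩ := exists_big Cl (fun γ => (E.filter (fun e => cl (te e) = γ)).card) E.card
    hClne (le_of_eq (Finset.card_eq_sum_card_fiberwise (fun e he => hCl _ (hte e he).1)))
  set E' := E.filter (fun e => cl (te e) = γ) with hE'
  have hE'ne : E'.Nonempty := by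
    rw [← Finset.card_pos]
    by_contra h0
    have h1 : E'.card = 0 := by omega
    have h2 : 0 < E.card := Finset.card_pos.mpr ⟨e0, he0⟩
    rw [h1, mul_zero] at hγc
    omega
  obtain ⟨e1, he1⟩ := hE'ne
  have he1' := Finset.mem_filter.mp he1
  set v0 : α := t0 0 with hv0
  have hv0V : v0 ∈ V := hSV t0 ht0 0
  set S0 := part S cl γ with hS0
  set n := (N γ).card with hn
  let Q : Finset (Fin (j + 1) → α) :=
    Fintype.piFinset (fun s => if s ∈ N γ then V else {v0})
  have hQc : Q.card = V.card ^ n := by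
    have h1 : ∀ s : Fin (j + 1), (if s ∈ N γ then V else {v0}).card =
        if s ∈ N γ then V.card else 1 := by
      intro s
      split_ifs <;> simp
    rw [Fintype.card_piFinset, Finset.prod_congr rfl (fun s _ => h1 s), Finset.prod_ite_mem,
      Finset.univ_inter, Finset.prod_const]
  have hQne : Q.Nonempty := by
    rw [← Finset.card_pos, hQc]
    exact pow_pos (Finset.card_pos.mpr ⟨v0, hv0V⟩) n
  let ρ : (Fin (j + 1) → α) → (Fin (j + 1) → α) := fun u s => if s ∈ N γ then u s else v0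
  have hlow : ∀ e ∈ E', σ ^ n ≤ (Q.filter (fun u' => stab γ u' e)).card := by
    intro e he
    have he' := Finset.mem_filter.mp he
    have hteS : te e ∈ S0 := mem_part.mpr ⟨(hte e he'.1).1, he'.2⟩
    have h1 : σ ^ n ≤ (S0.filter (fun u => Chain S0 (N γ).toList (te e) u)).card := by
      have h2 := card_chain' S0 σ (N γ).toList (N γ).nodup_toList (by
        intro t ht s hs
        have ht' := mem_part.mp ht
        have h3 := hS t ht'.1 s (by rw [ht'.2]; exact Finset.mem_toList.mp hs)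
        rw [ht'.2] at h3
        exact h3) (te e) hteS
      rwa [Finset.length_toList] at h2
    refine h1.trans (Finset.card_le_card_of_injOn ρ ?_ ?_)
    · intro u hu
      have hu' := Finset.mem_filter.mp (Finset.mem_coe.mp hu)
      have huS : u ∈ S := (mem_part.mp hu'.1).1
      rw [Finset.mem_coe, Finset.mem_filter]
      refine ⟨?_, ?_⟩
      · rw [Fintype.mem_piFinset]
        intro s
        by_cases hs : s ∈ N γ
        · simp only [ρ, hs, if_true]
          exact hSV u huS s
        · simp only [ρ, hs, if_false]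
          exact Finset.mem_singleton_self _
      · have h4 := hstab e he'.1 (te e) (hte e he'.1).1 (hte e he'.1).2 u huS
        rw [he'.2] at h4
        exact h4 hu'.2 (ρ u) (fun s hs => by simp only [ρ, hs, if_true])
    · intro u hu u' hu' heq
      have h5 := (Finset.mem_filter.mp (Finset.mem_coe.mp hu)).2
      have h6 := (Finset.mem_filter.mp (Finset.mem_coe.mp hu')).2
      funext s
      by_cases hs : s ∈ N γ
      · have h7 := congrFun heq s
        simpa only [ρ, hs, if_true] using h7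
      · have hs' : s ∉ (N γ).toList := fun h => hs (Finset.mem_toList.mp h)
        rw [chain_off _ h5 s hs', chain_off _ h6 s hs']
  have hsum : E'.card * σ ^ n ≤ ∑ u' ∈ Q, (E'.filter (fun e => stab γ u' e)).card := by
    calc E'.card * σ ^ n = ∑ _e ∈ E', σ ^ n := by rw [Finset.sum_const, smul_eq_mul]
      _ ≤ ∑ e ∈ E', (Q.filter (fun u' => stab γ u' e)).card := Finset.sum_le_sum hlow
      _ = ∑ u' ∈ Q, (E'.filter (fun e => stab γ u' e)).card := by
        simp only [Finset.card_filter]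
        rw [Finset.sum_comm]
  obtain ⟨u', hu'Q, hu'⟩ := exists_big Q _ _ hQne hsum
  refine ⟨te e1, (hte e1 he1'.1).1, u', ?_⟩
  rw [he1'.2]
  have hM : (E'.filter (fun e => stab γ u' e)).card ≤
      {e : Finset α | e ∈ E ∧ stab γ u' e}.ncard := by
    rw [← Set.ncard_coe_finset]
    apply Set.ncard_le_ncard
    · intro e he
      have h8 := Finset.mem_filter.mp (Finset.mem_coe.mp he)
      exact ⟨(Finset.mem_filter.mp h8.1).1, h8.2⟩
    · exact (Finset.finite_toSet E).subset fun e he => he.1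
  set M := {e : Finset α | e ∈ E ∧ stab γ u' e}.ncard with hMdef
  have hni : n ≤ i := hN γ
  have hpow : σ ^ (i - n) ≤ V.card ^ (i - n) := Nat.pow_le_pow_left hσ _
  rw [hQc] at hu'
  have e1' : σ ^ i = σ ^ n * σ ^ (i - n) := by rw [← pow_add, Nat.add_sub_cancel' hni]
  have e2' : V.card ^ i = V.card ^ n * V.card ^ (i - n) := by
    rw [← pow_add, Nat.add_sub_cancel' hni]
  calc E.card * σ ^ i = E.card * (σ ^ n * σ ^ (i - n)) := by rw [e1']
    _ ≤ (Cl.card * E'.card) * (σ ^ n * σ ^ (i - n)) := Nat.mul_le_mul_right _ hγc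
    _ = Cl.card * (E'.card * σ ^ n) * σ ^ (i - n) := by ring
    _ ≤ Cl.card * (V.card ^ n * M) * V.card ^ (i - n) :=
      Nat.mul_le_mul (Nat.mul_le_mul_left _ (hu'.trans (Nat.mul_le_mul_left _ hM))) hpow
    _ = Cl.card * V.card ^ i * M := by rw [e2']; ring

end Pool.Agent.H74.GA
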