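import Mathlib
import Pool.Agent.H74.GA.Dfs

/-!
Module Stb (linear algebra with inequalities, uses only `fib`, `Chain` of Dfs): the stabbing lemma.

Paper proof (complete). Write `q` for the number of coordinates and `η = 3 ε²`; note
`3 ε q + ε ≤ 1` because `4 q ε ≤ 1` and `q ≥ 1` if there is anything to prove.

One step. Let `t, t'` be tuples in `S`, `t'` agreeing with `t` off `s ∈ N`, put `b = b t`, `b' = b t'`
(so `b' s < 0`) and let `X = ∑ v, y v • h (t' v)`. Subtracting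
`∑ v, b' v • h (t' v) = w = ∑ v, b v • h (t v)` one finds
`h (t' s) = (b s / b' s) • h (t s) + ∑ v ≠ s, ((b v - b' v) / b' s) • h (t v)`, hence
`X = ∑ v, z v • h (t v)` with `z s = y s * (b s / b' s)` and
`z v = y v + y s * ((b v - b' v) / b' s)` for `v ≠ s`.

Invariant `I(L)`: `X = ∑ v, y v • h (t v)` where `k = L.length` and
(a) `(1 - η k) * a v ≤ y v` for `v ∉ N`,
(b) `(ε - η k) * a v ≤ y v ≤ (2 ε + η k) * a v` for `v ∈ N`, `v ∉ L`,
(c) `(ε - ε² - η k) * a v ≤ y v` for `v ∈ L` (`L ⊆ N`).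
Claim: if `Chain S L t u` with `t ∈ S` and `X = ∑ v ∈ N, ((1 + 2 ε) * a v) • h (u v) + w` then there
is `y` with `I(L)`. Induction on `L` (`t` generalised).
`L = []`: `u = t`, `y v = (1 + 2 ε) a v + b v` for `v ∈ N`, `y v = b v` for `v ∉ N`; by `hneg`
`ε a v ≤ y v ≤ 2 ε a v` for `v ∈ N`, by `hpos` `a v ≤ y v` for `v ∉ N`.
`s :: L`: there is `t' ∈ fib S s t` with `Chain S L t' u`; induction gives `y` for `t'`, and the step
gives `z` for `t`. As `s ∈ N`, `s ∉ L`: `0 ≤ (ε - η k) a s ≤ y s ≤ (2 ε + η k) a s ≤ 3 ε a s`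
(`η k ≤ ε` because `3 ε k ≤ 1`), and `|b' s| ≥ a s > 0`, so `y s / |b' s| ≤ 3 ε`; also
`|b v - b' v| ≤ ε a v` for every `v`, thus `|z v - y v| ≤ 3 ε * ε a v = η a v` for `v ≠ s`: (a), (b) and
(c) hold with `k + 1` for `v ≠ s`. For `v = s` (now in the list): `b s / b' s ≥ 1 / (1 + ε) ≥ 1 - ε`, so
`z s ≥ (ε - η k)(1 - ε) a s ≥ (ε - ε² - η k) a s ≥ (ε - ε² - η (k+1)) a s`.
Conclusion: `k = L.length ≤ q` (nodup), so `1 - η k ≥ 0`, `ε - η k ≥ 0` and
`ε - ε² - η k = ε (1 - ε - 3 ε k) ≥ 0`; hence all `y v ≥ 0` (`a v ≥ 0`).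
-/

namespace Pool.Agent.H74.GA

private theorem stb_base {q : ℕ} {α W : Type*} [AddCommGroup W] [Module ℝ W] (h : α → W)
    (b : Fin q → ℝ) (w : W) (N : Finset (Fin q)) (a : Fin q → ℝ) (ε : ℝ) (t : Fin q → α)
    (hsum : ∑ v, b v • h (t v) = w) :
    ∑ v ∈ N, ((1 + 2 * ε) * a v) • h (t v) + w =
      ∑ v, (b v + if v ∈ N then (1 + 2 * ε) * a v else 0) • h (t v) := by
  classical
  have h1 : ∑ v ∈ N, ((1 + 2 * ε) * a v) • h (t v) =
      ∑ v, (if v ∈ N then (1 + 2 * ε) * a v else 0) • h (t v) := by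
    rw [← Finset.sum_subset (Finset.subset_univ N)]
    · refine Finset.sum_congr rfl fun v hv => ?_
      rw [if_pos hv]
    · intro v _ hv
      rw [if_neg hv, zero_smul]
  rw [h1, ← hsum, ← Finset.sum_add_distrib]
  refine Finset.sum_congr rfl fun v _ => ?_
  rw [← add_smul, add_comm]

private theorem stb_step {q : ℕ} {α W : Type*} [AddCommGroup W] [Module ℝ W] (h : α → W)
    (b b' y : Fin q → ℝ) (w : W) (t t' : Fin q → α) (s : Fin q)
    (hb : ∑ v, b v • h (t v) = w) (hb' : ∑ v, b' v • h (t' v) = w) (hs : b' s ≠ 0)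
    (ht : ∀ v, v ≠ s → t' v = t v) :
    ∑ v, y v • h (t' v) = ∑ v, (y v + y s / b' s * (b v - b' v)) • h (t v) := by
  have h1 : ∑ v, y v • h (t' v) =
      ∑ v, (y v - y s / b' s * b' v) • h (t' v) + (y s / b' s) • w := by
    rw [← hb', Finset.smul_sum, ← Finset.sum_add_distrib]
    refine Finset.sum_congr rfl fun v _ => ?_
    rw [smul_smul, ← add_smul]
    congr 1
    ring
  have h2 : ∑ v, (y v - y s / b' s * b' v) • h (t' v) =
      ∑ v, (y v - y s / b' s * b' v) • h (t v) := by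
    refine Finset.sum_congr rfl fun v _ => ?_
    by_cases hv : v = s
    · subst hv
      have h3 : y v - y v / b' v * b' v = 0 := by
        field_simp
        ring
      rw [h3, zero_smul, zero_smul]
    · rw [ht v hv]
  rw [h1, h2, ← hb, Finset.smul_sum, ← Finset.sum_add_distrib]
  refine Finset.sum_congr rfl fun v _ => ?_
  rw [smul_smul, ← add_smul]
  congr 1
  ring

private theorem stb_key {q : ℕ} {α W : Type*} [AddCommGroup W] [Module ℝ W] (h : α → W)
    (b : (Fin q → α) → Fin q → ℝ) (w : W) (N : Finset (Fin q)) (a : Fin q → ℝ) (ε : ℝ)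
    (S : Finset (Fin q → α)) (hε : 0 < ε) (hε' : ε * (4 * q) ≤ 1)
    (haN : ∀ v ∈ N, 0 < a v)
    (hsum : ∀ u ∈ S, ∑ v, b u v • h (u v) = w)
    (hpos : ∀ u ∈ S, ∀ v, v ∉ N → a v ≤ b u v ∧ b u v ≤ (1 + ε) * a v)
    (hneg : ∀ u ∈ S, ∀ v ∈ N, a v ≤ - b u v ∧ - b u v ≤ (1 + ε) * a v) (u : Fin q → α)
    (L : List (Fin q)) : L.Nodup → (∀ s ∈ L, s ∈ N) → ∀ t ∈ S, Chain S L t u →
    ∃ y : Fin q → ℝ,
      ∑ v ∈ N, ((1 + 2 * ε) * a v) • h (u v) + w = ∑ v, y v • h (t v) ∧
      (∀ v, v ∉ N → (1 - 3 * ε ^ 2 * L.length) * a v ≤ y v) ∧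
      (∀ v ∈ N, v ∉ L → (ε - 3 * ε ^ 2 * L.length) * a v ≤ y v ∧
        y v ≤ (2 * ε + 3 * ε ^ 2 * L.length) * a v) ∧
      (∀ v ∈ L, (ε - ε ^ 2 - 3 * ε ^ 2 * L.length) * a v ≤ y v) := by
  classical
  induction L with
  | nil =>
    intro _ _ t ht hch
    have hu : u = t := hch
    subst hu
    refine ⟨_, stb_base h (b u) w N a ε u (hsum u ht), ?_, ?_, ?_⟩
    · intro v hv
      have h1 := hpos u ht v hv
      simp only [hv, if_false, List.length_nil, Nat.cast_zero]
      linarith [h1.1]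
    · intro v hv _
      have h1 := hneg u ht v hv
      simp only [hv, if_true, List.length_nil, Nat.cast_zero]
      constructor
      · nlinarith [h1.1, h1.2]
      · nlinarith [h1.1, h1.2]
    · intro v hv
      exact absurd hv (by simp)
  | cons s L ih =>
    intro hL hLN t ht hch
    obtain ⟨t', ht', hch'⟩ := hch
    rw [mem_fib] at ht'
    obtain ⟨hs1, hs2⟩ := ht'
    have hsL : s ∉ L := (List.nodup_cons.1 hL).1
    have hsN : s ∈ N := hLN s (by simp)
    obtain ⟨y, hy0, hya, hyb, hyc⟩ := ih (List.nodup_cons.1 hL).2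
      (fun v hv => hLN v (List.mem_cons_of_mem _ hv)) t' hs1 hch'
    have hq : L.length + 1 ≤ q := by
      have h1 := hL.length_le_card
      rw [Fintype.card_fin, List.length_cons] at h1
      exact h1
    have hq' : (L.length : ℝ) + 1 ≤ q := by exact_mod_cast hq
    have hk0 : (0 : ℝ) ≤ L.length := Nat.cast_nonneg _
    set k : ℝ := (L.length : ℝ) with hk
    have hεk : ε * (4 * k) ≤ 1 := by nlinarith
    have hηk : 3 * ε ^ 2 * k ≤ ε := by nlinarith [mul_nonneg hε.le hk0]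
    have hε1 : ε ≤ 1 := by nlinarith
    have hb's := hneg t' hs1 s hsN
    have hbs := hneg t ht s hsN
    have has := haN s hsN
    have hb'0 : b t' s < 0 := by linarith [hb's.1]
    have hys := hyb s hsN hsL
    have hys0 : 0 ≤ y s := le_trans (mul_nonneg (by linarith) has.le) hys.1
    have hys3 : y s ≤ 3 * ε * a s := le_trans hys.2 (by nlinarith)
    have hc0 : y s / b t' s ≤ 0 := div_nonpos_of_nonneg_of_nonpos hys0 hb'0.le
    have hc1 : -(3 * ε) ≤ y s / b t' s := by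
      rw [le_div_iff_of_neg hb'0]
      nlinarith [hb's.1]
    have hdiff : ∀ v, |b t v - b t' v| ≤ ε * a v := by
      intro v
      rw [abs_le]
      by_cases hv : v ∈ N
      · have h1 := hneg t ht v hv
        have h2 := hneg t' hs1 v hv
        constructor <;> linarith [h1.1, h1.2, h2.1, h2.2]
      · have h1 := hpos t ht v hv
        have h2 := hpos t' hs1 v hv
        constructor <;> linarith [h1.1, h1.2, h2.1, h2.2]
    have hpert : ∀ v, |y s / b t' s * (b t v - b t' v)| ≤ 3 * ε ^ 2 * a v := by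
      intro v
      rw [abs_mul]
      have h1 : |y s / b t' s| ≤ 3 * ε := abs_le.2 ⟨hc1, hc0.trans (by linarith)⟩
      calc |y s / b t' s| * |b t v - b t' v| ≤ (3 * ε) * (ε * a v) :=
            mul_le_mul h1 (hdiff v) (abs_nonneg _) (by linarith)
        _ = 3 * ε ^ 2 * a v := by ring
    have hlen : (((s :: L).length : ℕ) : ℝ) = k + 1 := by
      rw [List.length_cons, Nat.cast_add, Nat.cast_one, hk]
    refine ⟨fun v => y v + y s / b t' s * (b t v - b t' v), ?_, ?_, ?_, ?_⟩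
    · rw [hy0]
      exact stb_step h (b t) (b t') y w t t' s (hsum t ht) (hsum t' hs1) hb'0.ne hs2
    · intro v hv
      have h1 := (abs_le.1 (hpert v)).1
      have h2 := hya v hv
      rw [hlen]
      nlinarith
    · intro v hv hvL
      have h1 := abs_le.1 (hpert v)
      have h2 := hyb v hv (fun hc => hvL (List.mem_cons_of_mem _ hc))
      rw [hlen]
      constructor
      · nlinarith [h1.1, h2.1]
      · nlinarith [h1.2, h2.2]
    · intro v hv
      rw [hlen]
      rcases List.mem_cons.1 hv with hvs | hvL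
      · rw [hvs]
        have h1 : y s + y s / b t' s * (b t s - b t' s) = y s * (b t s / b t' s) := by
          have := hb'0.ne
          field_simp
          ring
        have h2 : 1 - ε ≤ b t s / b t' s := by
          rw [le_div_iff_of_neg hb'0]
          nlinarith [hb's.2, hbs.1, mul_pos hε has, mul_pos (mul_pos hε hε) has]
        show (ε - ε ^ 2 - 3 * ε ^ 2 * (k + 1)) * a s ≤ y s + y s / b t' s * (b t s - b t' s)
        rw [h1]
        calc (ε - ε ^ 2 - 3 * ε ^ 2 * (k + 1)) * a s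
            ≤ ((ε - 3 * ε ^ 2 * k) * (1 - ε)) * a s := by
              refine mul_le_mul_of_nonneg_right ?_ has.le
              nlinarith [mul_nonneg (mul_nonneg (mul_nonneg hε.le hε.le) hε.le) hk0,
                mul_nonneg hε.le hε.le]
          _ = ((ε - 3 * ε ^ 2 * k) * a s) * (1 - ε) := by ring
          _ ≤ y s * (1 - ε) := mul_le_mul_of_nonneg_right hys.1 (by linarith)
          _ ≤ y s * (b t s / b t' s) := mul_le_mul_of_nonneg_left h2 hys0
      · have h1 := (abs_le.1 (hpert v)).1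
        have h2 := hyc v hvL
        nlinarith

theorem stab_chain {q : ℕ} {α W : Type*} [AddCommGroup W] [Module ℝ W] (h : α → W)
    (b : (Fin q → α) → Fin q → ℝ) (w : W) (N : Finset (Fin q)) (a : Fin q → ℝ) (ε : ℝ)
    (S : Finset (Fin q → α)) (hε : 0 < ε) (hε' : ε * (4 * q) ≤ 1)
    (ha : ∀ v, 0 ≤ a v) (haN : ∀ v ∈ N, 0 < a v)
    (hsum : ∀ u ∈ S, ∑ v, b u v • h (u v) = w)
    (hpos : ∀ u ∈ S, ∀ v, v ∉ N → a v ≤ b u v ∧ b u v ≤ (1 + ε) * a v)
    (hneg : ∀ u ∈ S, ∀ v ∈ N, a v ≤ - b u v ∧ - b u v ≤ (1 + ε) * a v)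
    (L : List (Fin q)) (hL : L.Nodup) (hLN : ∀ s ∈ L, s ∈ N) (t u : Fin q → α) (ht : t ∈ S)
    (hch : Chain S L t u) :
    ∃ z : Fin q → ℝ, (∀ v, 0 ≤ z v) ∧
      ∑ v ∈ N, ((1 + 2 * ε) * a v) • h (u v) + w = ∑ v, z v • h (t v) := by
  classical
  obtain ⟨y, hy0, hya, hyb, hyc⟩ :=
    stb_key h b w N a ε S hε hε' haN hsum hpos hneg u L hL hLN t ht hch
  refine ⟨y, fun v => ?_, hy0⟩
  have hq : L.length ≤ q := by
    have h1 := hL.length_le_card
    rwa [Fintype.card_fin] at h1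
  have hq1 : 1 ≤ q := by
    have := v.2
    omega
  have hq' : (L.length : ℝ) ≤ q := by exact_mod_cast hq
  have hq1' : (1 : ℝ) ≤ q := by exact_mod_cast hq1
  have hk0 : (0 : ℝ) ≤ L.length := Nat.cast_nonneg _
  have hε4 : 4 * ε ≤ 1 := by nlinarith
  have hεk : ε * (4 * L.length) ≤ 1 := by nlinarith
  have hk3 : 3 * ε * L.length + ε ≤ 1 := by nlinarith
  have hηk : 3 * ε ^ 2 * L.length + ε ^ 2 ≤ ε := by
    have := mul_le_mul_of_nonneg_left hk3 hε.le
    nlinarith
  have hε2 : 0 ≤ ε ^ 2 := by positivity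
  by_cases hv : v ∈ N
  · by_cases hvL : v ∈ L
    · exact le_trans (mul_nonneg (by linarith) (ha v)) (hyc v hvL)
    · exact le_trans (mul_nonneg (by linarith) (ha v)) (hyb v hv hvL).1
  · exact le_trans (mul_nonneg (by nlinarith) (ha v)) (hya v hv)

end Pool.Agent.H74.GA
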