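import Mathlib
import Pool.Agent.H74.GA.Cln
import Pool.Agent.H74.GA.Bad
import Pool.Agent.H74.GA.Sel
import Pool.Agent.H74.GA.Stb
import Pool.Agent.H74.GA.Lin
import Pool.Agent.H74.GA.Lev
import Pool.Agent.H74.GA.Gen
import Pool.Agent.H74.GA.Flt

/-!
Module Mai (assembly for a fixed threshold `σ`).

Paper proof (complete). `γ`-part: `stab_tuple` applies `stab_chain` with `q = j + 1`,
`h = hom hj`, `ε = 2 / sbd j` (so `ε * (4 (j+1)) = 1`), `b u = sg γ * bet hj u`, `w = sg γ • tv j`,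
`N = sml γ`, `a v = val (sbd j) (γ v)` and `S0 = part S (cls hj) γ`: for `u ∈ S0` the class of `u` is `γ`,
`bet_sum` gives `hsum`, and `lev_bounds` gives `a v ≤ |bet hj u v| ≤ (1 + ε) a v`; for `v ∉ sml γ` the
number `sg γ * bet hj u v` is nonnegative and for `v ∈ sml γ` it is negative (definition of `neg`,
`pos`, `sml`, `sg`).
`cand_zero_pos`: coordinate `0` of `cand` is `∑ s ∈ sml γ, (1 + 2 ε) * val (γ s)`, which is positive since
`sml γ` is nonempty (`exists_neg`, `exists_pos`) and its elements have nonzero sign.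
`step_sigma`: `exists_clean` with `T = Tup hj G.V`, `cl = cls hj`, `N = sml`, gives `S`, `lab`. Let `F` be
the set of the edges of `G` that contain no (injective) tuple of `S`; by `card_no_good` with
`D = Dg hj G.V`, `δ = d`, `Cl = Cls j N` (and `exists_mem_Dg`, `card_Dg_le`, `cls_mem`, `bet_bound`),
`F.card ≤ n^j * (2^r * (d + (j+1)^(j+2) * κ * σ))^(r-j) ≤ n^j * (A κ σ)^(r-j) ≤ m / 2`, where
`κ = (Cls j N).card ≥ 1`, `A = 2^r * (d + (j+1)^(j+2))`, `σ ≥ 1`. So `E' = G.E \ F` has at least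
`m / 2` elements (and `E'` is nonempty as `m ≥ 2`), and every `e ∈ E'` contains a tuple of `S`. Apply
`exists_cand` to `E'` with `i = (j+1)/2` (`card_sml_le`) and
`stab γ u e = ∃ t, (∀ s, t s ∈ e) ∧ ∃ z, (∀ s, 0 ≤ z s) ∧ cand hj γ u = ∑ s, z s • hom hj (t s)`
(`hstab` is `stab_tuple`; `cand` only depends on the `u s` with `s ∈ sml γ`). The flat of
`exists_flat_of_vec` for `X = cand hj (cls hj t) u` (`cand_zero_pos`) meets all `e` with
`stab (cls hj t) u e`.
-/

namespace Pool.Agent.H74.GA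

open Pool.Agent.H68

variable {d j r : ℕ}

private lemma mai_sml_ne {q : ℕ} (γ : Fin q → SignType × ℤ) (v : Fin q) (hv : v ∈ sml γ) :
    (γ v).1 ≠ 0 := by
  unfold sml at hv
  split_ifs at hv with h
  · unfold neg at hv
    rw [Finset.mem_filter] at hv
    rw [hv.2]; decide
  · unfold pos at hv
    rw [Finset.mem_filter] at hv
    rw [hv.2]; decide

private lemma mai_sign_pos {q : ℕ} (γ : Fin q → SignType × ℤ) (v : Fin q) (x : ℝ)
    (hx : (γ v).1 = SignType.sign x) (hv : v ∉ sml γ) : sg γ * x = |x| := by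
  unfold sml at hv
  unfold sg
  split_ifs at hv ⊢ with h
  · unfold neg at hv
    rw [Finset.mem_filter] at hv
    rw [one_mul, abs_of_nonneg]
    by_contra hc
    exact hv ⟨Finset.mem_univ _, by rw [hx, sign_neg (not_le.1 hc)]⟩
  · unfold pos at hv
    rw [Finset.mem_filter] at hv
    rw [neg_one_mul, abs_of_nonpos]
    by_contra hc
    exact hv ⟨Finset.mem_univ _, by rw [hx, sign_pos (not_le.1 hc)]⟩

private lemma mai_sign_neg {q : ℕ} (γ : Fin q → SignType × ℤ) (v : Fin q) (x : ℝ)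
    (hx : (γ v).1 = SignType.sign x) (hv : v ∈ sml γ) : - (sg γ * x) = |x| := by
  unfold sml at hv
  unfold sg
  split_ifs at hv ⊢ with h
  · unfold neg at hv
    rw [Finset.mem_filter] at hv
    have h1 : SignType.sign x = -1 := by rw [← hx]; exact hv.2
    rw [sign_eq_neg_one_iff] at h1
    rw [one_mul, abs_of_neg h1]
  · unfold pos at hv
    rw [Finset.mem_filter] at hv
    have h1 : SignType.sign x = 1 := by rw [← hx]; exact hv.2
    rw [sign_eq_one_iff] at h1
    rw [neg_one_mul, neg_neg, abs_of_pos h1]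

theorem stab_tuple (hj1 : 1 ≤ j) (hj : j ≤ d) (V : Finset (Pt d))
    (S : Finset (Fin (j + 1) → Pt d)) (hS : S ⊆ Tup hj V) (t u : Fin (j + 1) → Pt d)
    (ht : t ∈ S) (hch : Chain (part S (cls hj) (cls hj t)) (sml (cls hj t)).toList t u)
    (u' : Fin (j + 1) → Pt d) (hu' : ∀ s ∈ sml (cls hj t), u' s = u s) :
    ∃ z : Fin (j + 1) → ℝ, (∀ s, 0 ≤ z s) ∧
      cand hj (cls hj t) u' = ∑ s, z s • hom hj (t s) := by
  set γ := cls hj t with hγ
  have hM : (0 : ℝ) < (sbd j : ℝ) := by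
    unfold sbd; push_cast; positivity
  have hM1 : 1 ≤ sbd j := by unfold sbd; omega
  have hcls : ∀ w ∈ part S (cls hj) γ, ∀ v, lev (sbd j) (bet hj w v) = γ v := by
    intro w hw v
    have h := (mem_part.1 hw).2
    exact congrFun h v
  have hdet : ∀ w ∈ part S (cls hj) γ, (mat hj w).det ≠ 0 := by
    intro w hw
    exact (mem_Tup.1 (hS (mem_part.1 hw).1)).2
  obtain ⟨z, hz, hX⟩ := stab_chain (hom hj) (fun w v => sg γ * bet hj w v) (sg γ • tv j) (sml γ)
    (fun v => val (sbd j) (γ v)) (2 / (sbd j : ℝ)) (part S (cls hj) γ) (by positivity)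
    (by
      unfold sbd
      push_cast
      rw [div_mul_eq_mul_div, div_le_one (by positivity)]
      linarith)
    (fun v => val_nonneg _ _) (fun v hv => val_pos _ _ (mai_sml_ne γ v hv))
    (by
      intro w hw
      rw [← bet_sum hj w (hdet w hw), Finset.smul_sum]
      apply Finset.sum_congr rfl
      intro v _
      rw [smul_smul])
    (by
      intro w hw v hv
      have h1 := lev_bounds (sbd j) hM1 (bet hj w v)
      have h2 := hcls w hw v
      have h3 := mai_sign_pos γ v (bet hj w v) (by rw [← h2]; rfl) hv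
      rw [h2, ← h3] at h1
      exact h1)
    (by
      intro w hw v hv
      have h1 := lev_bounds (sbd j) hM1 (bet hj w v)
      have h2 := hcls w hw v
      have h3 := mai_sign_neg γ v (bet hj w v) (by rw [← h2]; rfl) hv
      rw [h2, ← h3] at h1
      exact h1)
    (sml γ).toList (Finset.nodup_toList _) (fun s hs => Finset.mem_toList.1 hs) t u
    (mem_part.2 ⟨ht, hγ.symm⟩) hch
  refine ⟨z, hz, ?_⟩
  rw [← hX]
  unfold cand
  congr 1
  apply Finset.sum_congr rfl
  intro s hs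
  rw [hu' s hs]

theorem cand_zero_pos (hj1 : 1 ≤ j) (hj : j ≤ d) (V : Finset (Pt d)) (t u : Fin (j + 1) → Pt d)
    (ht : t ∈ Tup hj V) : 0 < cand hj (cls hj t) u 0 := by
  have hdet := (mem_Tup.1 ht).2
  have hM : (0 : ℝ) < (sbd j : ℝ) := by
    unfold sbd; push_cast; positivity
  have htv : tv j 0 = 0 := by
    unfold tv
    rw [Pi.single_eq_of_ne]
    intro h
    have := congrArg Fin.val h
    rw [Fin.val_last] at this
    simp at this
    omega
  have hne : (sml (cls hj t)).Nonempty := by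
    unfold sml
    split_ifs with h
    · obtain ⟨s, hs⟩ := exists_neg hj1 hj t hdet
      refine ⟨s, ?_⟩
      unfold neg
      rw [Finset.mem_filter]
      refine ⟨Finset.mem_univ _, ?_⟩
      unfold cls lev
      exact sign_neg hs
    · obtain ⟨s, hs⟩ := exists_pos hj1 hj t hdet
      refine ⟨s, ?_⟩
      unfold pos
      rw [Finset.mem_filter]
      refine ⟨Finset.mem_univ _, ?_⟩
      unfold cls lev
      exact sign_pos hs
  unfold cand
  rw [Pi.add_apply, Finset.sum_apply, Pi.smul_apply, htv, smul_zero, add_zero]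
  apply Finset.sum_pos _ hne
  intro s hs
  rw [Pi.smul_apply, smul_eq_mul]
  have h1 : hom hj (u s) 0 = 1 := by
    unfold hom
    rw [Fin.cons_zero]
  rw [h1, mul_one]
  have := val_pos (sbd j) (cls hj t s) (mai_sml_ne _ s hs)
  positivity

theorem step_sigma (hj1 : 1 ≤ j) (hj : j ≤ d) (hr : j + 1 ≤ r) (N : ℕ) (hN : 1 ≤ N)
    (G : GeomHyp d r) (hG : ∀ x ∈ G.V, ∀ i, ∃ z : ℕ, z ≤ N ∧ x i = z) (hE : G.E.Nonempty)
    (σ : ℕ) (hσ : 1 ≤ σ) (hσn : σ ≤ G.V.card)
    (hm : 2 * (G.V.card ^ j * (2 ^ r * (d + (j + 1) ^ (j + 2)) * (Cls j N).card * σ) ^ (r - j)) ≤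
      G.E.card) :
    ∃ L : AffineSubspace ℝ (Pt d), IsFlat (d - j) L ∧
      G.E.card * σ ^ ((j + 1) / 2) ≤
        2 * (Cls j N).card * G.V.card ^ ((j + 1) / 2) * numMet G L := by
  classical
  have hκ : 1 ≤ (Cls j N).card := by
    rw [card_Cls]
    exact Nat.one_le_pow _ _ (card_labs_pos j N)
  -- cleaning
  obtain ⟨S, lab, hST, hS1, hS2⟩ := exists_clean (Tup hj G.V) (cls hj) sml σ
  have hclmem : ∀ t ∈ Tup hj G.V, cls hj t ∈ Cls j N := by
    intro t ht
    obtain ⟨htV, hdet⟩ := mem_Tup.1 ht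
    apply cls_mem hj N hN
    intro s hs
    exact bet_bound hj N hN t (fun s i => hG _ (htV s) i) hdet s hs
  set F : Finset (Finset (Pt d)) := G.E.filter
    (fun e => ∀ t : Fin (j + 1) → Pt d, Function.Injective t → (∀ s, t s ∈ e) → t ∉ S) with hF
  have hFcard := card_no_good G.V r σ d hj1 (by omega) (Tup hj G.V) S (cls hj) lab (Cls j N)
    hclmem hS2 (Dg hj G.V) (fun g hg hgc => card_Dg_le G hj1 hj g hg hgc)
    (by
      intro t htinj htV htT
      apply exists_mem_Dg hj G.V t htinj htV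
      by_contra hdet
      exact htT (mem_Tup.2 ⟨htV, hdet⟩))
    F
    (by
      intro e he
      rw [hF, Finset.mem_filter] at he
      exact ⟨G.subV e he.1, G.card_eq e he.1⟩)
    (by
      intro e he
      rw [hF, Finset.mem_filter] at he
      exact he.2)
  have hF2 : 2 * F.card ≤ G.E.card := by
    refine le_trans (Nat.mul_le_mul_left 2 hFcard) (le_trans ?_ hm)
    apply Nat.mul_le_mul_left
    apply Nat.mul_le_mul_left
    apply Nat.pow_le_pow_left
    have h1 : 1 ≤ (Cls j N).card * σ := Nat.mul_pos hκ hσ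
    calc 2 ^ r * (d + (j + 1) ^ (j + 2) * (Cls j N).card * σ)
        = 2 ^ r * (d * 1 + (j + 1) ^ (j + 2) * ((Cls j N).card * σ)) := by ring
      _ ≤ 2 ^ r * (d * ((Cls j N).card * σ) + (j + 1) ^ (j + 2) * ((Cls j N).card * σ)) := by
          apply Nat.mul_le_mul_left
          apply Nat.add_le_add_right
          exact Nat.mul_le_mul_left d h1
      _ = 2 ^ r * (d + (j + 1) ^ (j + 2)) * (Cls j N).card * σ := by ring
  set E' : Finset (Finset (Pt d)) := G.E \ F with hE'
  have hFE : F ⊆ G.E := Finset.filter_subset _ _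
  have hE'card : G.E.card ≤ 2 * E'.card := by
    have := Finset.card_sdiff_add_card_eq_card hFE
    rw [← hE'] at this
    omega
  have hE'ne : E'.Nonempty := by
    rw [← Finset.card_pos]
    have := Finset.card_pos.2 hE
    omega
  have hE'good : ∀ e ∈ E', ∃ t ∈ S, ∀ s, t s ∈ e := by
    intro e he
    rw [hE', Finset.mem_sdiff] at he
    obtain ⟨heE, heF⟩ := he
    rw [hF, Finset.mem_filter] at heF
    push Not at heF
    obtain ⟨t, _, hte, htS⟩ := heF heE
    exact ⟨t, htS, hte⟩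
  -- selection
  obtain ⟨t, htS, u, hmain⟩ := exists_cand G.V S (fun t ht s => (mem_Tup.1 (hST ht)).1 s)
    (cls hj) (Cls j N) (fun t ht => hclmem t (hST ht)) sml ((j + 1) / 2) σ
    (fun γ => card_sml_le γ) hσn hS1 E' hE'ne hE'good
    (fun γ u e => ∃ t : Fin (j + 1) → Pt d, (∀ s, t s ∈ e) ∧ ∃ z : Fin (j + 1) → ℝ,
      (∀ s, 0 ≤ z s) ∧ cand hj γ u = ∑ s, z s • hom hj (t s))
    (by
      intro e _ t htS hte u _ hch u' hu'
      obtain ⟨z, hz, hX⟩ := stab_tuple hj1 hj G.V S hST t u htS hch u' hu'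
      exact ⟨t, hte, z, hz, hX⟩)
  obtain ⟨L, hL, hmeet⟩ := exists_flat_of_vec hj (cand hj (cls hj t) u)
    (cand_zero_pos hj1 hj G.V t u (hST htS))
  refine ⟨L, hL, ?_⟩
  have hcount : {e : Finset (Pt d) | e ∈ E' ∧ ∃ t' : Fin (j + 1) → Pt d, (∀ s, t' s ∈ e) ∧
      ∃ z : Fin (j + 1) → ℝ, (∀ s, 0 ≤ z s) ∧
        cand hj (cls hj t) u = ∑ s, z s • hom hj (t' s)}.ncard ≤ numMet G L := by
    unfold numMet
    apply Set.ncard_le_ncard
    · rintro e ⟨he, t', ht', z, hz, hX⟩
      refine ⟨(Finset.mem_sdiff.1 he).1, hmeet e t' z ht' hz hX⟩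
    · exact (Finset.finite_toSet G.E).subset (fun e he => he.1)
  calc G.E.card * σ ^ ((j + 1) / 2) ≤ (2 * E'.card) * σ ^ ((j + 1) / 2) :=
        Nat.mul_le_mul_right _ hE'card
    _ = 2 * (E'.card * σ ^ ((j + 1) / 2)) := by ring
    _ ≤ 2 * ((Cls j N).card * G.V.card ^ ((j + 1) / 2) * numMet G L) := by
        apply Nat.mul_le_mul_left
        exact hmain.trans (Nat.mul_le_mul_left _ hcount)
    _ = _ := by ring

end Pool.Agent.H74.GA
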