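import Mathlib

/-!
Module Num (only Mathlib): the final numerical step.

Paper proof (complete). Let `ρ = r - j ≥ 1` (a natural number), `x = m / n^j`, `Y = x ^ (1/ρ)`, so
`Y ^ ρ = x` and `Y ≥ 0`. If `m = 0` then `Y = 0` and the left side is `0`. As `m ≤ n^r`, `x ≤ n^ρ` and
`Y ≤ n`. Let `P σ` be the condition `2 * (n^j * (A κ σ)^ρ) ≤ m`. If `P 1` fails: `x < 2 (A κ)^ρ ≤
(2 A κ)^ρ`, so `Y ≤ 2 A κ`, and (using `Y / n ≤ 1`, `i ≥ 1`)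
`m (Y/n)^i ≤ m (Y/n) ≤ m 2 A κ / n ≤ 2 A κ f ≤ 2 (4A)^i κ^(i+1) f` by `h1`.
If `P 1` holds let `σ ≥ 1` be the largest number with `P σ` (it is bounded: `P σ` implies
`(A κ σ)^ρ n^j ≤ m ≤ n^r`, so `A κ σ ≤ n` and `σ ≤ n`); `P (σ + 1)` fails, so
`Y ≤ 2 A κ (σ + 1) ≤ 4 A κ σ` and
`m (Y/n)^i ≤ (4 A κ)^i * m σ^i / n^i ≤ (4 A κ)^i * 2 κ f` by `h2`.
-/

namespace Pool.Agent.H74.GA

theorem numeric_final (m n r j i κ A f : ℕ) (hr : j + 1 ≤ r) (hi : 1 ≤ i)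
    (hn : 1 ≤ n) (hm : m ≤ n ^ r) (hκ : 1 ≤ κ) (hA : 1 ≤ A) (h1 : m ≤ n * f)
    (h2 : ∀ σ : ℕ, 1 ≤ σ → σ ≤ n → 2 * (n ^ j * (A * κ * σ) ^ (r - j)) ≤ m →
      m * σ ^ i ≤ 2 * κ * n ^ i * f) :
    (m : ℝ) * (((m : ℝ) / (n : ℝ) ^ j) ^ (1 / ((r : ℝ) - j)) / n) ^ i ≤
      2 * (4 * (A : ℝ)) ^ i * (κ : ℝ) ^ (i + 1) * f := by
  have hρ1 : 1 ≤ r - j := by omega
  obtain ⟨ρ, hρ⟩ : ∃ ρ, ρ = r - j := ⟨_, rfl⟩
  have hρc : ((r : ℝ) - j) = (ρ : ℝ) := by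
    rw [hρ, Nat.cast_sub (by omega)]
  rw [← hρ] at h2 hρ1
  rw [hρc]
  have hn0 : (0 : ℝ) < (n : ℝ) := by exact_mod_cast hn
  have hn1 : (1 : ℝ) ≤ (n : ℝ) := by exact_mod_cast hn
  have hκ1 : (1 : ℝ) ≤ (κ : ℝ) := by exact_mod_cast hκ
  have hA1 : (1 : ℝ) ≤ (A : ℝ) := by exact_mod_cast hA
  have hnj : (0 : ℝ) < (n : ℝ) ^ j := by positivity
  obtain ⟨x, hx⟩ : ∃ x : ℝ, x = (m : ℝ) / (n : ℝ) ^ j := ⟨_, rfl⟩
  have hx0 : 0 ≤ x := by rw [hx]; positivity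
  rw [← hx]
  obtain ⟨Y, hY⟩ : ∃ Y : ℝ, Y = x ^ (1 / (ρ : ℝ)) := ⟨_, rfl⟩
  have hY0 : 0 ≤ Y := by rw [hY]; exact Real.rpow_nonneg hx0 _
  have hYρ : Y ^ ρ = x := by
    rw [hY, ← Real.rpow_natCast, ← Real.rpow_mul hx0, one_div_mul_cancel, Real.rpow_one]
    have : (0 : ℝ) < (ρ : ℝ) := by exact_mod_cast hρ1
    exact this.ne'
  rw [← hY]
  have hρ0 : ρ ≠ 0 := by omega
  have hYle : ∀ B : ℝ, 0 ≤ B → x ≤ B ^ ρ → Y ≤ B := by
    intro B hB hxB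
    by_contra hcon
    push Not at hcon
    have h3 : B ^ ρ < Y ^ ρ := pow_lt_pow_left₀ hcon hB hρ0
    rw [hYρ] at h3
    linarith
  have hYn : Y ≤ n := by
    apply hYle _ hn0.le
    rw [hx, div_le_iff₀ hnj, ← pow_add]
    have h4 : ρ + j = r := by omega
    rw [h4]
    exact_mod_cast hm
  have hYn1 : Y / n ≤ 1 := by
    rw [div_le_one hn0]; exact hYn
  have hYn0 : 0 ≤ Y / n := by positivity
  have hfail : ∀ σ : ℕ, ¬ (2 * (n ^ j * (A * κ * σ) ^ ρ) ≤ m) →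
      Y ≤ 2 * A * κ * σ := by
    intro σ hσ
    push Not at hσ
    have hσ' : (m : ℝ) < 2 * ((n : ℝ) ^ j * ((A : ℝ) * κ * σ) ^ ρ) := by
      exact_mod_cast hσ
    apply hYle _ (by positivity)
    have h5 : x ≤ 2 * ((A : ℝ) * κ * σ) ^ ρ := by
      rw [hx, div_le_iff₀ hnj]
      nlinarith
    have h6 : (2 : ℝ) ≤ 2 ^ ρ := by
      calc (2 : ℝ) = 2 ^ 1 := by norm_num
        _ ≤ 2 ^ ρ := pow_le_pow_right₀ (by norm_num) hρ1
    have h7 : (0 : ℝ) ≤ ((A : ℝ) * κ * σ) ^ ρ := by positivity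
    calc x ≤ 2 * ((A : ℝ) * κ * σ) ^ ρ := h5
      _ ≤ 2 ^ ρ * ((A : ℝ) * κ * σ) ^ ρ := mul_le_mul_of_nonneg_right h6 h7
      _ = (2 * A * κ * σ) ^ ρ := by rw [← mul_pow]; ring_nf
  have h1' : (m : ℝ) ≤ n * f := by exact_mod_cast h1
  have hf0 : (0 : ℝ) ≤ f := Nat.cast_nonneg f
  have hm0 : (0 : ℝ) ≤ m := Nat.cast_nonneg m
  have hκp : (κ : ℝ) ≤ (κ : ℝ) ^ (i + 1) := by
    calc (κ : ℝ) = κ ^ 1 := by ring
      _ ≤ κ ^ (i + 1) := pow_le_pow_right₀ hκ1 (by omega)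
  have hAp : (A : ℝ) ≤ (4 * (A : ℝ)) ^ i := by
    calc (A : ℝ) ≤ (4 * (A : ℝ)) ^ 1 := by linarith
      _ ≤ (4 * (A : ℝ)) ^ i := pow_le_pow_right₀ (by linarith) hi
  by_cases hP1 : 2 * (n ^ j * (A * κ * 1) ^ ρ) ≤ m
  · have hbound : ∀ σ : ℕ, 2 * (n ^ j * (A * κ * σ) ^ ρ) ≤ m → σ ≤ n := by
      intro σ hσ
      have h8 : n ^ j * (A * κ * σ) ^ ρ ≤ n ^ j * n ^ ρ := by
        have h9 : n ^ j * n ^ ρ = n ^ r := by
          rw [← pow_add]; congr 1; omega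
        rw [h9]
        have h10 : n ^ j * (A * κ * σ) ^ ρ ≤ 2 * (n ^ j * (A * κ * σ) ^ ρ) := by omega
        omega
      have h11 : (A * κ * σ) ^ ρ ≤ n ^ ρ := Nat.le_of_mul_le_mul_left h8 (by positivity)
      have h12 : A * κ * σ ≤ n := (Nat.pow_le_pow_iff_left hρ0).1 h11
      have h13 : 1 * σ ≤ A * κ * σ := Nat.mul_le_mul_right σ (Nat.mul_pos hA hκ)
      omega
    classical
    obtain ⟨σ, hσ⟩ : ∃ σ, σ = Nat.findGreatest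
      (fun σ => 2 * (n ^ j * (A * κ * σ) ^ ρ) ≤ m) n := ⟨_, rfl⟩
    have h1n : 1 ≤ n := hn
    have hσP : 2 * (n ^ j * (A * κ * σ) ^ ρ) ≤ m := by
      have := Nat.findGreatest_spec (P := fun σ => 2 * (n ^ j * (A * κ * σ) ^ ρ) ≤ m)
        h1n hP1
      rw [hσ]; exact this
    have hσ1 : 1 ≤ σ := by
      rw [hσ]
      exact Nat.le_findGreatest (P := fun σ => 2 * (n ^ j * (A * κ * σ) ^ ρ) ≤ m) h1n hP1
    have hσn : σ ≤ n := hbound σ hσP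
    have hσ2 : ¬ (2 * (n ^ j * (A * κ * (σ + 1)) ^ ρ) ≤ m) := by
      intro hcon
      have h14 : σ + 1 ≤ n := hbound (σ + 1) hcon
      have h15 := Nat.le_findGreatest
        (P := fun σ => 2 * (n ^ j * (A * κ * σ) ^ ρ) ≤ m) h14 hcon
      rw [← hσ] at h15
      omega
    have h16 := hfail (σ + 1) hσ2
    have hσ1r : (1 : ℝ) ≤ σ := by exact_mod_cast hσ1
    have h17 : Y ≤ 4 * A * κ * σ := by
      push_cast at h16
      have : 0 ≤ (A : ℝ) * κ := by positivity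
      nlinarith
    have h18 := h2 σ hσ1 hσn hσP
    have h18' : (m : ℝ) * (σ : ℝ) ^ i ≤ 2 * κ * (n : ℝ) ^ i * f := by exact_mod_cast h18
    have hni : (0 : ℝ) < (n : ℝ) ^ i := by positivity
    calc (m : ℝ) * (Y / n) ^ i ≤ m * ((4 * A * κ * σ) / n) ^ i := by
          apply mul_le_mul_of_nonneg_left _ hm0
          apply pow_le_pow_left₀ hYn0
          exact div_le_div_of_nonneg_right h17 hn0.le
      _ = (4 * (A : ℝ)) ^ i * (κ : ℝ) ^ i * ((m * (σ : ℝ) ^ i) / (n : ℝ) ^ i) := by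
          rw [div_pow, mul_pow, mul_pow]
          field_simp
      _ ≤ (4 * (A : ℝ)) ^ i * (κ : ℝ) ^ i * ((2 * κ * (n : ℝ) ^ i * f) / (n : ℝ) ^ i) := by
          apply mul_le_mul_of_nonneg_left _ (by positivity)
          exact div_le_div_of_nonneg_right h18' hni.le
      _ = 2 * (4 * (A : ℝ)) ^ i * (κ : ℝ) ^ (i + 1) * f := by
          rw [pow_succ (κ : ℝ) i]
          field_simp
  · have h19 := hfail 1 hP1
    have h20 : (Y / n) ^ i ≤ Y / n := by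
      calc (Y / n) ^ i ≤ (Y / n) ^ 1 := pow_le_pow_of_le_one hYn0 hYn1 hi
        _ = Y / n := pow_one _
    calc (m : ℝ) * (Y / n) ^ i ≤ m * (Y / n) := mul_le_mul_of_nonneg_left h20 hm0
      _ ≤ (n * f) * (Y / n) := mul_le_mul_of_nonneg_right h1' hYn0
      _ = f * Y := by field_simp
      _ ≤ f * (2 * A * κ) := by
          apply mul_le_mul_of_nonneg_left _ hf0
          simpa using h19
      _ = 2 * A * κ * f := by ring
      _ ≤ 2 * (4 * (A : ℝ)) ^ i * (κ : ℝ) ^ (i + 1) * f := by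
          apply mul_le_mul_of_nonneg_right _ hf0
          apply mul_le_mul _ hκp (by positivity) (by positivity)
          linarith

end Pool.Agent.H74.GA
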