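import Mathlib
import Pool.Agent.H74.GA.Mai
import Pool.Agent.H74.GA.Num

/-!
Module Fnl (final theorem).

Paper proof (complete). Let `C` be the constant of `card_labs_le d`, `A = 2^(d+1) * (d + (d+1)^(d+2))`
and `c = 1 / (2 * (4 A)^(d+1) * C^((d+1) * (d+2)))`. Let `G` be given. If `G.E` is empty the left side
is `0` (any `(d-j)`-flat, `exists_flat_through`). Otherwise `r ≤ d + 1` (an affinely independent family
of `r` points in `ℝ^d`), `m ≤ n.choose r ≤ n^r`, `n ≥ 1`. Let `L` be the best `(d-j)`-flat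
(`exists_best_flat`), `f = numMet G L`, `i = (j+1)/2 ≥ 1`, `κ = (Cls j N).card`. `exists_flat_deg` gives
`m ≤ n * f`; `step_sigma` (with `A' = 2^r * (d + (j+1)^(j+2)) ≤ A`) gives `h2` of `numeric_final` for
`A'`. So `m * (Y/n)^i ≤ 2 * (4 A')^i * κ^(i+1) * f` and `κ = (labs j N).card^(j+1) ≤ (C log N)^(j+1)`,
`κ^(i+1) ≤ C^((j+1)(i+1)) * (log N)^((j+1)(i+1))`, with `C ≥ 1`, `i ≤ d + 1`, `(j+1)(i+1) ≤ (d+1)(d+2)`.
-/

namespace Pool.Agent.H74.GA

open Pool.Agent.H68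

private lemma Fnl_r_le {d r : ℕ} (G : GeomHyp d r) (hE : G.E.Nonempty) : r ≤ d + 1 := by
  classical
  obtain ⟨e, he⟩ := hE
  have h1 := (G.simplex e he).card_le_finrank_succ
  have h2 : Module.finrank ℝ (vectorSpan ℝ (Set.range ((↑) : e → Pt d))) ≤ d := by
    refine (Submodule.finrank_le _).trans ?_
    rw [finrank_euclideanSpace_fin]
  have h3 : Fintype.card e = r := by
    rw [Fintype.card_coe]
    exact G.card_eq e he
  omega

private lemma Fnl_m_le {d r : ℕ} (G : GeomHyp d r) : G.E.card ≤ G.V.card ^ r := by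
  classical
  have h1 : G.E ⊆ Finset.powersetCard r G.V := by
    intro e he
    rw [Finset.mem_powersetCard]
    exact ⟨G.subV e he, G.card_eq e he⟩
  have h2 := Finset.card_le_card h1
  rw [Finset.card_powersetCard] at h2
  exact h2.trans (Nat.choose_le_pow _ _)

private lemma Fnl_n_pos {d r : ℕ} (G : GeomHyp d r) (hr : 1 ≤ r) (hE : G.E.Nonempty) :
    1 ≤ G.V.card := by
  classical
  obtain ⟨e, he⟩ := hE
  have h1 := Finset.card_le_card (G.subV e he)
  rw [G.card_eq e he] at h1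
  omega

private lemma Fnl_A_le {d j r : ℕ} (hj : j ≤ d) (hr : r ≤ d + 1) :
    2 ^ r * (d + (j + 1) ^ (j + 2)) ≤ 2 ^ (d + 1) * (d + (d + 1) ^ (d + 2)) := by
  have h1 : (j + 1) ^ (j + 2) ≤ (d + 1) ^ (d + 2) :=
    (Nat.pow_le_pow_left (by omega) _).trans (Nat.pow_le_pow_right (by omega) (by omega))
  have h2 : 2 ^ r ≤ 2 ^ (d + 1) := Nat.pow_le_pow_right (by omega) hr
  exact Nat.mul_le_mul h2 (by omega)

/-- the last numerical step -/
private lemma Fnl_real (d j i : ℕ) (hj : j ≤ d) (hi : i ≤ d + 1) (A' A C κ T f lab l : ℝ)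
    (hA0 : 0 ≤ A') (hA1 : 1 ≤ A) (hAA : A' ≤ A) (hC : 1 ≤ C) (hf : 0 ≤ f) (hl : 0 ≤ l)
    (hlab0 : 0 ≤ lab) (hlab : lab ≤ C * l) (hκ : κ = lab ^ (j + 1))
    (hT : T ≤ 2 * (4 * A') ^ i * κ ^ (i + 1) * f) :
    1 / (2 * (4 * A) ^ (d + 1) * C ^ ((d + 1) * (d + 2))) * T ≤ l ^ ((j + 1) * (i + 1)) * f := by
  have h1 : κ ^ (i + 1) ≤ C ^ ((d + 1) * (d + 2)) * l ^ ((j + 1) * (i + 1)) := by
    rw [hκ, ← pow_mul]
    calc lab ^ ((j + 1) * (i + 1)) ≤ (C * l) ^ ((j + 1) * (i + 1)) :=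
          pow_le_pow_left₀ hlab0 hlab _
      _ = C ^ ((j + 1) * (i + 1)) * l ^ ((j + 1) * (i + 1)) := mul_pow _ _ _
      _ ≤ C ^ ((d + 1) * (d + 2)) * l ^ ((j + 1) * (i + 1)) := by
          refine mul_le_mul_of_nonneg_right ?_ (by positivity)
          refine pow_le_pow_right₀ hC ?_
          exact Nat.mul_le_mul (by omega) (by omega)
  have h2 : (4 * A') ^ i ≤ (4 * A) ^ (d + 1) := by
    calc (4 * A') ^ i ≤ (4 * A) ^ i := pow_le_pow_left₀ (by positivity) (by linarith) _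
      _ ≤ (4 * A) ^ (d + 1) := pow_le_pow_right₀ (by linarith) hi
  have hκ0 : 0 ≤ κ := by
    rw [hκ]
    positivity
  have hA0' : 0 < A := by linarith
  have hC0 : 0 < C := by linarith
  have h3 : T ≤ (2 * (4 * A) ^ (d + 1) * C ^ ((d + 1) * (d + 2))) *
      (l ^ ((j + 1) * (i + 1)) * f) := by
    calc T ≤ 2 * (4 * A') ^ i * κ ^ (i + 1) * f := hT
      _ ≤ 2 * (4 * A) ^ (d + 1) * (C ^ ((d + 1) * (d + 2)) * l ^ ((j + 1) * (i + 1))) * f := by
          refine mul_le_mul_of_nonneg_right ?_ hf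
          exact mul_le_mul (mul_le_mul_of_nonneg_left h2 (by norm_num)) h1 (by positivity)
            (by positivity)
      _ = _ := by ring
  have hpos : 0 < 2 * (4 * A) ^ (d + 1) * C ^ ((d + 1) * (d + 2)) := by positivity
  rw [one_div, inv_mul_le_iff₀ hpos]
  exact h3

theorem gridFlats (d : ℕ) : ∃ c : ℝ, 0 < c ∧ ∀ j r N : ℕ, 1 ≤ j → j ≤ d → j + 1 ≤ r → 2 ≤ N →
    ∀ G : GeomHyp d r, (∀ x ∈ G.V, ∀ i, ∃ z : ℕ, z ≤ N ∧ x i = z) →
      ∃ L : AffineSubspace ℝ (Pt d), IsFlat (d - j) L ∧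
        c * ((G.E.card : ℝ) *
          (((G.E.card : ℝ) / (G.V.card : ℝ) ^ j) ^ (1 / ((r : ℝ) - j)) / G.V.card) ^
            ((j + 1) / 2)) ≤
          (Real.log N) ^ ((j + 1) * ((j + 1) / 2 + 1)) * numMet G L := by
  classical
  obtain ⟨C, hC1, hC⟩ := card_labs_le d
  set A : ℕ := 2 ^ (d + 1) * (d + (d + 1) ^ (d + 2)) with hA
  have hA1 : 1 ≤ A := by
    rw [hA]
    have : 0 < 2 ^ (d + 1) * (d + (d + 1) ^ (d + 2)) := by positivity
    exact this
  have hA1' : (1 : ℝ) ≤ A := by exact_mod_cast hA1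
  have hC0 : 0 < C := by linarith
  refine ⟨1 / (2 * (4 * (A : ℝ)) ^ (d + 1) * C ^ ((d + 1) * (d + 2))), by positivity, ?_⟩
  intro j r N hj1 hj hr hN G hG
  have hlog : 0 ≤ Real.log N := Real.log_natCast_nonneg N
  obtain ⟨L, hL, hbest⟩ := exists_best_flat G (d - j) (Nat.sub_le d j)
  refine ⟨L, hL, ?_⟩
  rcases G.E.eq_empty_or_nonempty with hE | hE
  · rw [hE]
    simp only [Finset.card_empty, Nat.cast_zero, zero_mul, mul_zero]
    positivity
  · have hrd := Fnl_r_le G hE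
    have hm := Fnl_m_le G
    have hn := Fnl_n_pos G (by omega) hE
    have hdeg : G.E.card ≤ G.V.card * numMet G L := by
      obtain ⟨L', hL', h⟩ := exists_flat_deg G (d - j) (Nat.sub_le d j) (by omega) hE
      exact h.trans (Nat.mul_le_mul_left _ (hbest L' hL'))
    have hκ : 1 ≤ (Cls j N).card := by
      rw [card_Cls]
      exact Nat.one_le_pow _ _ (card_labs_pos j N)
    have hi1 : 1 ≤ (j + 1) / 2 := by omega
    have hA' : 1 ≤ 2 ^ r * (d + (j + 1) ^ (j + 2)) := by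
      have : 0 < 2 ^ r * (d + (j + 1) ^ (j + 2)) := by positivity
      exact this
    have key := numeric_final G.E.card G.V.card r j ((j + 1) / 2) (Cls j N).card
      (2 ^ r * (d + (j + 1) ^ (j + 2))) (numMet G L) hr hi1 hn hm hκ hA' hdeg (by
        intro σ hσ hσn hP
        obtain ⟨L', hL', h⟩ := step_sigma hj1 hj hr N (by omega) G hG hE σ hσ hσn hP
        exact h.trans (Nat.mul_le_mul_left _ (hbest L' hL')))
    refine Fnl_real d j ((j + 1) / 2) hj (by omega)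
      ((2 ^ r * (d + (j + 1) ^ (j + 2)) : ℕ) : ℝ) (A : ℝ) C ((Cls j N).card : ℝ) _
      (numMet G L : ℝ) ((labs j N).card : ℝ) (Real.log N) (by positivity) hA1' ?_ hC1
      (by positivity) hlog (by positivity) (hC j N hj hN) ?_ key
    · exact_mod_cast Fnl_A_le hj hrd
    · rw [card_Cls]
      push_cast
      ring

end Pool.Agent.H74.GA
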